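import Pool.Agent.V8H63.NT.Frm

set_option autoImplicit false
set_option linter.unusedSectionVars false

/-!
# The contraction with `δ`: uniqueness and approximation of forms
-/

namespace Pool.Agent.V8H63.NF

open scoped TensorProduct
open H39Gon H39Gon.TaskB H39Gon.E2 Pool.Agent.V8H63.W3

variable {F : Type} [Field F]

theorem pair_eq (y : Fin 2 → UV F) : y = ![y 0, y 1] := by
  ext i; fin_cases i <;> rfl

theorem E2r_iz {k : ℕ} (A : UV F [⋀^Fin (k + 3)]→ₗ[ℤ] ℚ) (l : LQ F 2) (z : UV F)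
    (w : Fin k → UV F) : E2r F (k + 1) A l (Fin.cons z w) = E2r F k (iz z A) l w := by
  have key : (evA (Fin.cons z w)) ∘ₗ (E2r F (k + 1) A) = (evA w) ∘ₗ (E2r F k (iz z A)) := by
    apply lext
    intro y
    rw [pair_eq y]
    change E2r F (k + 1) A (lq F 2 ![y 0, y 1]) (Fin.cons z w) =
      E2r F k (iz z A) (lq F 2 ![y 0, y 1]) w
    rw [E2r_lq, E2r_lq, iz_apply]
    have h1 := cons_swap A z (y 0) (Fin.cons (y 1) w)
    have h2 := cons_swap (iz (y 0) A) z (y 1) w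
    rw [iz_apply, iz_apply] at h2
    rw [h1, h2, neg_neg]
  exact LinearMap.congr_fun key l

theorem iz_E2r {k : ℕ} (A : UV F [⋀^Fin (k + 3)]→ₗ[ℤ] ℚ) (l : LQ F 2) (z : UV F) :
    iz z (E2r F (k + 1) A l) = E2r F k (iz z A) l := by
  ext w
  rw [iz_apply, E2r_iz]

theorem form_zero {V : Type} [AddCommGroup V] {k : ℕ} (f : V [⋀^Fin (k + 1)]→ₗ[ℤ] ℚ)
    (h : ∀ z, iz z f = 0) : f = 0 := by
  ext u
  rw [eq_cons u, ← iz_apply, h]
  rfl

/-- forms which vanish on `im δ` -/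
def Kd {k : ℕ} (C : UV F [⋀^Fin (k + 2)]→ₗ[ℤ] ℚ) : Prop := ∀ d, E2r F k C (δF F d) = 0

theorem Kd.iz {k : ℕ} {C : UV F [⋀^Fin (k + 3)]→ₗ[ℤ] ℚ} (h : Kd C) (z : UV F) :
    Kd (iz z C) := by
  intro d
  rw [← iz_E2r, h d, map_zero]

/-- `K_2` is generated by the symbols with entries in `X` -/
def GenX (X : Set (UV F)) : Prop := ∀ l : LQ F 2, ∃ d : DQ F,
  l - δF F d ∈ Submodule.span ℚ {l | ∃ x ∈ X, ∃ y ∈ X, l = lq F 2 ![x, y]}

theorem GenX.mono {X X' : Set (UV F)} (h : GenX X) (hX : X ⊆ X') : GenX X' := by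
  intro l
  obtain ⟨d, hd⟩ := h l
  refine ⟨d, Submodule.span_mono ?_ hd⟩
  rintro _ ⟨x, hx, y, hy, rfl⟩
  exact ⟨x, hX hx, y, hX hy, rfl⟩

theorem E2r_zero_of {k : ℕ} {X : Set (UV F)} (hX : GenX X) (C : UV F [⋀^Fin (k + 2)]→ₗ[ℤ] ℚ)
    (hC : Kd C) (w : Fin k → UV F)
    (h : ∀ x ∈ X, ∀ y ∈ X, C (Fin.cons x (Fin.cons y w)) = 0) (l : LQ F 2) :
    E2r F k C l w = 0 := by
  obtain ⟨d, hd⟩ := hX l
  have h1 : Submodule.span ℚ {l | ∃ x ∈ X, ∃ y ∈ X, l = lq F 2 ![x, y]} ≤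
      LinearMap.ker ((evA w) ∘ₗ (E2r F k C)) := by
    rw [Submodule.span_le]
    rintro _ ⟨x, hx, y, hy, rfl⟩
    change E2r F k C (lq F 2 ![x, y]) w = 0
    rw [E2r_lq, h x hx y hy]
  have h2 : E2r F k C (l - δF F d) w = 0 := h1 hd
  rw [map_sub, hC d, sub_zero] at h2
  exact h2

/-- **uniqueness** -/
theorem uniq {X : Set (UV F)} (hX : GenX X) : ∀ (k : ℕ) (C : UV F [⋀^Fin (k + 2)]→ₗ[ℤ] ℚ), Kd C →
    (∀ u : Fin (k + 2) → UV F, (∀ i, u i ∈ X) → C u = 0) → C = 0 := by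
  intro k
  induction k with
  | zero =>
    intro C hC h0
    ext u
    have h1 := E2r_zero_of hX C hC (Fin.tail (Fin.tail u)) (fun x hx y hy => by
      refine h0 _ (fun i => ?_)
      fin_cases i
      · exact hx
      · exact hy) (lq F 2 ![u 0, u 1])
    rw [E2r_lq] at h1
    have h2 : u = Fin.cons (u 0) (Fin.cons (u 1) (Fin.tail (Fin.tail u))) := by
      conv_lhs => rw [← Fin.cons_self_tail u, ← Fin.cons_self_tail (Fin.tail u)]
      rfl
    rw [h2, h1]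
    rfl
  | succ k ih =>
    intro C hC h0
    have h1 : ∀ x ∈ X, iz x C = 0 := by
      intro x hx
      refine ih _ (hC.iz x) (fun u hu => ?_)
      rw [iz_apply]
      refine h0 _ (fun i => ?_)
      refine Fin.cases ?_ (fun i => ?_) i
      · exact hx
      · exact hu i
    apply form_zero
    intro z
    refine ih _ (hC.iz z) (fun u hu => ?_)
    rw [eq_cons u, ← iz_apply, iz_swap, h1 _ (hu 0), map_zero, neg_zero]
    rfl

theorem chi_e' {k : ℕ} (A : UV F [⋀^Fin (k + 2)]→ₗ[ℤ] ℚ) (d : DQ F) (y : Fin k → UV F) :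
    ofAlt A (e1e F k (emb y d)) = E2r F k A (δF F d) y := by
  obtain ⟨l, hl1, hl2⟩ := chi_e (ofAlt A)
  rw [hl2]
  have key : l = E2r F k A := by
    apply lext
    intro v
    ext w
    rw [pair_eq v, hl1, E2r_lq, toAlt_apply, ofAlt_apply]
  rw [key]

theorem toAlt_ofAlt {k : ℕ} (A : UV F [⋀^Fin k]→ₗ[ℤ] ℚ) : toAlt (ofAlt A) = A := by
  ext u
  rw [toAlt_apply, ofAlt_apply]

theorem ofAlt_toAlt {k : ℕ} (χ : LQ F k →ₗ[ℚ] ℚ) : ofAlt (toAlt χ) = χ := by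
  apply lext
  intro u
  rw [ofAlt_apply, toAlt_apply]

/-- functionals which factor -/
theorem exists_factor {U W : Type} [AddCommGroup U] [Module ℚ U] [AddCommGroup W] [Module ℚ W]
    (f : U →ₗ[ℚ] W) (g : U →ₗ[ℚ] ℚ) (h : ∀ u, f u = 0 → g u = 0) :
    ∃ l : W →ₗ[ℚ] ℚ, ∀ u, l (f u) = g u := by
  have h1 : g ∈ (LinearMap.ker f).dualAnnihilator := by
    rw [Submodule.mem_dualAnnihilator]
    exact fun u hu => h u hu
  rw [← LinearMap.range_dualMap_eq_dualAnnihilator_ker] at h1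
  obtain ⟨l, hl⟩ := h1
  exact ⟨l, fun u => LinearMap.congr_fun hl u⟩

/-- a finite set of conditions -/
theorem fin_cond {W ι : Type} [AddCommGroup W] [Module ℚ W] (r : ι → W) (N : Submodule ℚ W)
    [FiniteDimensional ℚ N] : ∃ Y : Set ι, Y.Finite ∧
    N ⊓ Submodule.span ℚ (Set.range r) ≤ Submodule.span ℚ (r '' Y) := by
  have hfd : FiniteDimensional ℚ (N ⊓ Submodule.span ℚ (Set.range r) : Submodule ℚ W) :=
    Submodule.finiteDimensional_inf_left N _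
  obtain ⟨T, hT⟩ := (Submodule.fg_top _).1 hfd.fg_top
  have hT' : ∀ t ∈ T, ∃ Y : Set ι, Y.Finite ∧ t ∈ Submodule.span ℚ (r '' Y) := by
    intro t ht
    have h1 : t ∈ (N ⊓ Submodule.span ℚ (Set.range r) : Submodule ℚ W) := by
      rw [← hT]
      exact Submodule.subset_span ht
    obtain ⟨T', hT', ht'⟩ := Submodule.mem_span_finite_of_mem_span h1.2
    choose g hg using fun m : T' => hT' m.2
    refine ⟨Set.range g, Set.finite_range g, Submodule.span_mono ?_ ht'⟩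
    intro m hm
    exact ⟨g ⟨m, hm⟩, ⟨⟨m, hm⟩, rfl⟩, hg ⟨m, hm⟩⟩
  choose! Y hY hYt using hT'
  refine ⟨⋃ t ∈ T, Y t, T.finite_toSet.biUnion hY, ?_⟩
  rw [← hT, Submodule.span_le]
  intro t ht
  exact Submodule.span_mono (Set.image_mono (Set.subset_biUnion_of_mem ht)) (hYt t ht)

/-- **approximation** -/
theorem approx (X : Set (UV F)) (hX : X.Finite) (k : ℕ) :
    ∃ 𝒴 : Set (DQ F × (Fin k → UV F)), 𝒴.Finite ∧ ∀ A : UV F [⋀^Fin (k + 2)]→ₗ[ℤ] ℚ,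
      (∀ q ∈ 𝒴, E2r F k A (δF F q.1) q.2 = 0) → ∃ C : UV F [⋀^Fin (k + 2)]→ₗ[ℤ] ℚ, Kd C ∧
        ∀ u : Fin (k + 2) → UV F, (∀ i, u i ∈ X) → A u = C u := by
  let r : DQ F × (Fin k → UV F) → LQ F (k + 2) := fun q => e1e F k (emb q.2 q.1)
  set G : Set (LQ F (k + 2)) := {l | ∃ u : Fin (k + 2) → UV F, (∀ i, u i ∈ X) ∧ l = lq F (k + 2) u}
    with hG
  have hGf : G.Finite := by
    have h1 : (Set.pi Set.univ (fun _ : Fin (k + 2) => X)).Finite := Set.Finite.pi fun _ => hX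
    refine (h1.image (fun u => lq F (k + 2) u)).subset ?_
    rintro _ ⟨u, hu, rfl⟩
    exact ⟨u, fun i _ => hu i, rfl⟩
  set N := Submodule.span ℚ G with hN
  have hfd : FiniteDimensional ℚ N := FiniteDimensional.span_of_finite ℚ hGf
  obtain ⟨𝒴, h𝒴, hle⟩ := fin_cond r N
  refine ⟨𝒴, h𝒴, fun A hA => ?_⟩
  set R := Submodule.span ℚ (Set.range r) with hR
  obtain ⟨g, hg⟩ := exists_factor (R.mkQ ∘ₗ N.subtype) ((ofAlt A) ∘ₗ N.subtype) (by
    intro n hn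
    rw [LinearMap.comp_apply, Submodule.mkQ_apply, Submodule.Quotient.mk_eq_zero] at hn
    have h1 : (n : LQ F (k + 2)) ∈ Submodule.span ℚ (r '' 𝒴) := hle ⟨n.2, hn⟩
    have h2 : Submodule.span ℚ (r '' 𝒴) ≤ LinearMap.ker (ofAlt A) := by
      rw [Submodule.span_le]
      rintro _ ⟨q, hq, rfl⟩
      change ofAlt A (e1e F k (emb q.2 q.1)) = 0
      rw [chi_e', hA q hq]
    exact h2 h1)
  refine ⟨toAlt (g ∘ₗ R.mkQ), ?_, ?_⟩
  · intro d
    ext w
    rw [← chi_e', ofAlt_toAlt, LinearMap.comp_apply, Submodule.mkQ_apply,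
      (Submodule.Quotient.mk_eq_zero R).2 (Submodule.subset_span ⟨(d, w), rfl⟩), map_zero]
    rfl
  · intro u hu
    have h1 := hg ⟨lq F (k + 2) u, Submodule.subset_span ⟨u, hu, rfl⟩⟩
    rw [toAlt_apply]
    have h2 : (g ∘ₗ R.mkQ) (lq F (k + 2) u) = ofAlt A (lq F (k + 2) u) := h1
    rw [h2, ofAlt_apply]

end Pool.Agent.V8H63.NF
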