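import Pool.Agent.V8H63.NT.Loc3
import Pool.Agent.V8H63.NF.NFstr

set_option autoImplicit false
set_option linter.unusedSectionVars false

/-!
# The base of the induction: weight three
-/

namespace Pool.Agent.V8H63.NF

open scoped TensorProduct
open NumberField H39Gon H39Gon.TaskB H39Gon.E2 Pool.Agent.V8H63.W3

section compl

variable {F : Type} [Field F]

/-- a complement of the image of `δ` -/
theorem exists_compl {X₀ : Set (UV F)} (hX₀ : X₀.Finite) (hg : GenX X₀) :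
    ∃ (m : ℕ) (v w : Fin m → UV F) (κ : Fin m → LQ F 2 →ₗ[ℚ] ℚ) (s : LQ F 2 →ₗ[ℚ] DQ F),
      (∀ i d, κ i (δF F d) = 0) ∧
      (∀ i j, κ i (lq F 2 ![v j, w j]) = if i = j then 1 else 0) ∧
      (∀ l, ∃ d, l = δF F d + ∑ i, κ i l • lq F 2 ![v i, w i]) ∧
      (∀ d, δF F (s (δF F d)) = δF F d) ∧ ∀ i, s (lq F 2 ![v i, w i]) = 0 := by
  classical
  set R := LinearMap.range (δF F) with hR
  set G : Set (LQ F 2) := {l | ∃ x ∈ X₀, ∃ y ∈ X₀, l = lq F 2 ![x, y]} with hG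
  have hGf : G.Finite := by
    refine ((hX₀.prod hX₀).image (fun p : UV F × UV F => lq F 2 ![p.1, p.2])).subset ?_
    rintro _ ⟨x, hx, y, hy, rfl⟩
    exact ⟨(x, y), ⟨hx, hy⟩, rfl⟩
  set S : Set (LQ F 2 ⧸ R) := R.mkQ '' G with hS
  have hSf : S.Finite := hGf.image _
  have htop : Submodule.span ℚ S = ⊤ := by
    rw [eq_top_iff]
    rintro q -
    obtain ⟨l, rfl⟩ := R.mkQ_surjective q
    obtain ⟨d, hd⟩ := hg l
    have h1 : R.mkQ l = R.mkQ (l - δF F d) := by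
      rw [map_sub, Submodule.mkQ_apply R (δF F d),
        (Submodule.Quotient.mk_eq_zero R).2 ⟨d, rfl⟩, sub_zero]
    rw [h1, hS, Submodule.span_image]
    exact ⟨_, hd, rfl⟩
  haveI : Module.Finite ℚ (Submodule.span ℚ S) := FiniteDimensional.span_of_finite ℚ hSf
  obtain ⟨f, hf, hsp, hli⟩ := Submodule.exists_fun_fin_finrank_span_eq ℚ S
  have hf' : ∀ i, ∃ x y : UV F, R.mkQ (lq F 2 ![x, y]) = f i := by
    intro i
    obtain ⟨_, ⟨x, -, y, -, rfl⟩, h⟩ := hf i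
    exact ⟨x, y, h⟩
  choose v w hvw using hf'
  set b := Module.Basis.mk hli (by rw [hsp, htop]) with hb
  have hbi : ∀ i, b i = R.mkQ (lq F 2 ![v i, w i]) := by
    intro i
    rw [hvw, hb, Module.Basis.mk_apply]
  set κ : Fin _ → LQ F 2 →ₗ[ℚ] ℚ := fun i => b.coord i ∘ₗ R.mkQ with hκ
  have k1 : ∀ i d, κ i (δF F d) = 0 := by
    intro i d
    rw [hκ]
    change b.coord i (R.mkQ (δF F d)) = 0
    rw [Submodule.mkQ_apply, (Submodule.Quotient.mk_eq_zero R).2 ⟨d, rfl⟩, map_zero]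
  have k2 : ∀ i j, κ i (lq F 2 ![v j, w j]) = if i = j then 1 else 0 := by
    intro i j
    change b.coord i (R.mkQ (lq F 2 ![v j, w j])) = _
    rw [← hbi, Module.Basis.coord_apply, Module.Basis.repr_self, Finsupp.single_apply]
    by_cases h : j = i
    · rw [if_pos h, if_pos h.symm]
    · rw [if_neg h, if_neg (Ne.symm h)]
  have k3 : ∀ l, l - ∑ i, κ i l • lq F 2 ![v i, w i] ∈ R := by
    intro l
    rw [← Submodule.Quotient.mk_eq_zero, ← Submodule.mkQ_apply, map_sub, map_sum, sub_eq_zero]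
    have h1 := b.sum_repr (R.mkQ l)
    rw [← h1]
    refine Finset.sum_congr rfl (fun i _ => ?_)
    rw [map_smul, hbi]
    rfl
  obtain ⟨r, hr⟩ := LinearMap.exists_rightInverse_of_surjective (δF F).rangeRestrict
    (LinearMap.range_rangeRestrict _)
  have hr' : ∀ z : R, δF F (r z) = z := by
    intro z
    have h1 := LinearMap.congr_fun hr z
    exact congrArg Subtype.val h1
  let p₀ : LQ F 2 →ₗ[ℚ] LQ F 2 :=
    LinearMap.id - ∑ i, (κ i).smulRight (lq F 2 ![v i, w i])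
  have hp₀ : ∀ l, p₀ l = l - ∑ i, κ i l • lq F 2 ![v i, w i] := by
    intro l
    simp [p₀]
  let p : LQ F 2 →ₗ[ℚ] R := LinearMap.codRestrict R p₀ (fun l => by rw [hp₀]; exact k3 l)
  have hp : ∀ l, (p l : LQ F 2) = l - ∑ i, κ i l • lq F 2 ![v i, w i] := fun l => hp₀ l
  refine ⟨_, v, w, κ, r ∘ₗ p, k1, k2, fun l => ?_, fun d => ?_, fun j => ?_⟩
  · obtain ⟨d, hd⟩ := k3 l
    exact ⟨d, by rw [hd, sub_add_cancel]⟩
  · rw [LinearMap.comp_apply, hr', hp]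
    simp [k1]
  · rw [LinearMap.comp_apply]
    have h1 : p (lq F 2 ![v j, w j]) = 0 := by
      apply Subtype.ext
      rw [hp]
      simp [k2]
    rw [h1, map_zero]

end compl

variable {F : Type} [Field F] [NumberField F]

theorem range_sb (d : DQ F) : δF F d ∈ Submodule.span ℚ
    {m | ∃ a b : 𝓞 F, a ≠ 0 ∧ b ≠ 0 ∧ a - b ≠ 0 ∧ m = δF F (sbF a b)} := by
  rw [← δF_clean]
  have h1 := Submodule.mem_map_of_mem (f := δF F) (clean_mem d)
  rw [Submodule.map_span] at h1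
  refine Submodule.span_mono ?_ h1
  rintro _ ⟨_, ⟨a, b, ha, hb, hab, rfl⟩, rfl⟩
  exact ⟨a, b, ha, hb, hab, rfl⟩

theorem facF_tau (ω : MQ F →ₗ[ℚ] MQ F →ₗ[ℚ] ℚ) (hω : ∀ x, ω x x = 0) (f : LQ F 2 →ₗ[ℚ] ℚ)
    (hf : ∀ x y, f (wgF F x y) = ω x y) (a b : 𝓞 F) (ha : a ≠ 0) (hb : b ≠ 0)
    (hab : a - b ≠ 0) (h : tau (cF F) ω a b = 0) : f (δF F (sbF a b)) = 0 := by
  rw [δsbF a b ha hb hab, hf, ← h]
  unfold tau tt
  simp only [map_sub, LinearMap.sub_apply, hω]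
  rw [alt_swap ω hω ((cF F).c a) ((cF F).c b),
    alt_swap ω hω ((cF F).c b) ((cF F).c (a - b))]
  ring

/-- `K_2` modulo finitely many symbols -/
theorem K2finP_of {m : ℕ} {v w : Fin m → UV F} {κ : Fin m → LQ F 2 →ₗ[ℚ] ℚ}
    (h : ∀ l, ∃ d, l = δF F d + ∑ i, κ i l • lq F 2 ![v i, w i]) :
    K2finP (cF F) (fun ω => ∀ i, ω ((1 : ℚ) ⊗ₜ[ℤ] v i) ((1 : ℚ) ⊗ₜ[ℤ] w i) = 0) := by
  intro x y hx hy
  obtain ⟨d, hd⟩ := h (wgF F ((cF F).c x) ((cF F).c y))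
  obtain ⟨X, hX, hXm⟩ := Submodule.mem_span_finite_of_mem_span (range_sb d)
  have hX' : ∀ m : LQ F 2, m ∈ X → ∃ a b : 𝓞 F, a ≠ 0 ∧ b ≠ 0 ∧ a - b ≠ 0 ∧
      m = δF F (sbF a b) := fun m hm => hX hm
  choose! f g hf hg hfg hfg' using hX'
  refine ⟨(fun m => (f m, g m)) '' (X : Set (LQ F 2)), X.finite_toSet.image _, ?_, ?_⟩
  · rintro _ ⟨m, hm, rfl⟩
    exact ⟨hf m hm, hg m hm, hfg m hm⟩
  · intro ω hω hP hτ
    obtain ⟨F', hF'⟩ := facF ω hω
    rw [← hF', hd, map_add, map_sum]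
    have h1 : Submodule.span ℚ (X : Set (LQ F 2)) ≤ LinearMap.ker F' := by
      rw [Submodule.span_le]
      intro m hm
      rw [SetLike.mem_coe, LinearMap.mem_ker, hfg' m hm]
      exact facF_tau ω hω F' hF' _ _ (hf m hm) (hg m hm) (hfg m hm) (hτ (f m, g m) ⟨m, hm, rfl⟩)
    have h2 : F' (δF F d) = 0 := h1 hXm
    rw [h2, zero_add]
    refine Finset.sum_eq_zero (fun i _ => ?_)
    rw [map_smul, ← wgF_apply, hF', hP i, smul_zero]

/-- evaluation of forms in one variable -/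
noncomputable def evQ (F : Type) [Field F] :
    (UV F [⋀^Fin (0 + 1)]→ₗ[ℤ] ℚ) →ₗ[ℚ] (MQ F →ₗ[ℚ] ℚ) :=
  AddMonoidHom.toRatLinearMap
    { toFun := fun f => lf (ev1 (UV F) f)
      map_zero' := by rw [map_zero, map_zero]
      map_add' := fun f g => by rw [map_add, map_add] }

theorem evQ_apply (f : UV F [⋀^Fin (0 + 1)]→ₗ[ℤ] ℚ) (v : UV F) :
    evQ F f ((1 : ℚ) ⊗ₜ[ℤ] v) = f (fun _ => v) := by
  change lf (ev1 (UV F) f) ((1 : ℚ) ⊗ₜ[ℤ] v) = _
  rw [lf_apply, ev1_apply]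

/-- `T(x, y, z) = P(z, x; y) + P(z, y; x)` -/
noncomputable def Tg {M : Type} [AddCommGroup M] [Module ℚ M]
    (P : M →ₗ[ℚ] M →ₗ[ℚ] M →ₗ[ℚ] ℚ) : M →ₗ[ℚ] M →ₗ[ℚ] M →ₗ[ℚ] ℚ :=
  LinearMap.mk₂ ℚ (fun x y => (P.flip x).flip y + (P.flip y).flip x)
    (fun a b v => by ext z; simp only [map_add, LinearMap.add_apply, LinearMap.flip_apply]; ring)
    (fun q a v => by
      ext z
      simp only [map_smul, LinearMap.smul_apply, LinearMap.add_apply, LinearMap.flip_apply,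
        smul_eq_mul]
      ring)
    (fun a b v => by ext z; simp only [map_add, LinearMap.add_apply, LinearMap.flip_apply]; ring)
    (fun q a v => by
      ext z
      simp only [map_smul, LinearMap.smul_apply, LinearMap.add_apply, LinearMap.flip_apply,
        smul_eq_mul]
      ring)

theorem Tg_apply {M : Type} [AddCommGroup M] [Module ℚ M]
    (P : M →ₗ[ℚ] M →ₗ[ℚ] M →ₗ[ℚ] ℚ) (x y z : M) : Tg P x y z = P z x y + P z y x := rfl

theorem Tg_sym {M : Type} [AddCommGroup M] [Module ℚ M]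
    (P : M →ₗ[ℚ] M →ₗ[ℚ] M →ₗ[ℚ] ℚ) (hP : ∀ x y z, P x y z = - P y x z) : Sym (Tg P) where
  s x y z := by rw [Tg_apply, Tg_apply]; ring
  c x y z := by
    rw [Tg_apply, Tg_apply, Tg_apply, hP z x y, hP z y x, hP x y z]
    ring

theorem Wd_top (v : UV F) : ∃ N₀ : ℕ, ∀ N, N₀ ≤ N →
    (1 : ℚ) ⊗ₜ[ℤ] v ∈ Wd (cF F) (Pr F N) := by
  obtain ⟨a, b, ha, hb, h⟩ := cl_frac v
  refine ⟨max (Ideal.absNorm (Ideal.span {a}) + 1) (Ideal.absNorm (Ideal.span {b}) + 1),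
    fun N hN => ?_⟩
  rw [h]
  exact Submodule.sub_mem _ (cW' _ (mem_Sm_large ha N (by omega)))
    (cW' _ (mem_Sm_large hb N (by omega)))

theorem Wd_top_fin {m : ℕ} (v : Fin m → UV F) : ∃ N₀ : ℕ, ∀ N, N₀ ≤ N → ∀ i,
    (1 : ℚ) ⊗ₜ[ℤ] v i ∈ Wd (cF F) (Pr F N) := by
  choose f hf using fun i => Wd_top (v i)
  refine ⟨Finset.univ.sup f, fun N hN i => hf i N ((Finset.le_sup (Finset.mem_univ i)).trans hN)⟩

theorem TT_zero : TT F 0 := by
  classical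
  obtain ⟨X₀, hX₀, hg⟩ := K2gen_lq (F := F)
  obtain ⟨m, v, w, κ, s, k1, k2, k3, k4, k5⟩ := exists_compl hX₀ hg
  obtain ⟨N₃, hN₃⟩ := exists_locP (cF F) _ (K2finP_of k3)
  obtain ⟨N₁, hN₁⟩ := Wd_top_fin v
  obtain ⟨N₂, hN₂⟩ := Wd_top_fin w
  set N₀ := max N₃ (max N₁ N₂) with hN₀
  obtain ⟨X, hX, hXs, hXW⟩ := Wd_fg (cF F) N₀
  set vv : Fin m → MQ F := fun i => (1 : ℚ) ⊗ₜ[ℤ] v i with hvv
  set ww : Fin m → MQ F := fun i => (1 : ℚ) ⊗ₜ[ℤ] w i with hww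
  have hv0 : ∀ i, vv i ∈ Wd (cF F) (Pr F N₀) := fun i => hN₁ N₀ (by omega) i
  have hw0 : ∀ i, ww i ∈ Wd (cF F) (Pr F N₀) := fun i => hN₂ N₀ (by omega) i
  refine ⟨(fun q : 𝓞 F × 𝓞 F × 𝓞 F => (s (lq F 2 ![cl (q.1 : F), cl (q.2.1 : F)]),
    fun _ => cl (q.2.2 : F))) '' (X ×ˢ X ×ˢ X), (hX.prod (hX.prod hX)).image _, ?_⟩
  intro Θ hΘ h0
  -- the functional on `D ⊗ M`
  set φ : DQ F →ₗ[ℚ] MQ F →ₗ[ℚ] ℚ := evQ F ∘ₗ Θ with hφ
  have hφ1 : ∀ d u, φ d ((1 : ℚ) ⊗ₜ[ℤ] u) = Θ d (fun _ => u) := fun d u => evQ_apply _ _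
  have hφk : ∀ h, δF F h = 0 → φ h = 0 := by
    intro h hh
    rw [hφ, LinearMap.comp_apply, hΘ.ker h hh, map_zero]
  set P0 : MQ F →ₗ[ℚ] MQ F →ₗ[ℚ] MQ F →ₗ[ℚ] ℚ := (wgF F).compr₂ (φ ∘ₗ s) with hP0
  have hP0a : ∀ x y z, P0 x y z = φ (s (wgF F x y)) z := fun x y z => rfl
  set lam : Fin m → MQ F →ₗ[ℚ] ℚ := fun i =>
    (1 / 2 : ℚ) • ((P0 (ww i)).flip (vv i) - (P0 (vv i)).flip (ww i)) with hlam
  have hlama : ∀ i y, lam i y = (1 / 2 : ℚ) * (P0 (ww i) y (vv i) - P0 (vv i) y (ww i)) :=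
    fun i y => rfl
  set Φ : LQ F 2 →ₗ[ℚ] MQ F →ₗ[ℚ] ℚ := φ ∘ₗ s + ∑ i, (κ i).smulRight (lam i) with hΦ
  have hΦa : ∀ l y, Φ l y = φ (s l) y + ∑ i, κ i l * lam i y := by
    intro l y
    rw [hΦ, LinearMap.add_apply, LinearMap.add_apply, LinearMap.comp_apply, LinearMap.sum_apply,
      LinearMap.sum_apply]
    rfl
  have hΦδ : ∀ d, Φ (δF F d) = φ d := by
    intro d
    apply LinearMap.ext
    intro y
    rw [hΦa]
    have h1 := hφk (d - s (δF F d)) (by rw [map_sub, k4, sub_self])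
    rw [map_sub, sub_eq_zero] at h1
    rw [h1]
    simp [k1]
  set P : MQ F →ₗ[ℚ] MQ F →ₗ[ℚ] MQ F →ₗ[ℚ] ℚ := (wgF F).compr₂ Φ with hP
  have hPa : ∀ x y z, P x y z = Φ (wgF F x y) z := fun x y z => rfl
  have hPa' : ∀ x y z, P x y z = P0 x y z + ∑ i, κ i (wgF F x y) * lam i z :=
    fun x y z => hΦa _ _
  have hwsw : ∀ x y, wgF F x y = - wgF F y x := by
    intro x y
    have h := wgF_self (x + y)
    simp only [map_add, LinearMap.add_apply, wgF_self] at h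
    rw [zero_add, add_zero, add_comm] at h
    exact eq_neg_of_add_eq_zero_left h
  have hPsw : ∀ x y z, P x y z = - P y x z := by
    intro x y z
    rw [hPa, hPa, hwsw, map_neg, LinearMap.neg_apply]
  have hrel : ∀ U, RelU (cF F) U (Tg P) := by
    intro U a b e ha hb he hab _
    have hk : a - e = -b := by rw [← hab]; ring
    have hk0 : a - e ≠ 0 := by rw [hk]; exact neg_ne_zero.2 hb
    have hk' : (cF F).c (a - e) = (cF F).c b := by rw [hk, (cF F).neg]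
    have ha' : (a : F) ≠ 0 := by simpa using ha
    have he' : (e : F) ≠ 0 := by simpa using he
    rw [Tg_apply, hPa, ← hk', ← δsbF a e ha he hk0, hΦδ]
    have h1 : φ (sbF a e) ((cF F).c a - (cF F).c e) = 0 := by
      rw [cF_c, cF_c, ← TensorProduct.tmul_sub, ← cl_div ha' he', hφ1]
      have h2 := hΘ.dec ((a : F) / e) Fin.elim0 (div_ne_zero ha' he')
      have h3 : (fun _ => cl ((a : F) / e) : Fin (0 + 1) → UV F) =
          Fin.cons (cl ((a : F) / e)) Fin.elim0 := by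
        funext k
        refine Fin.cases rfl (fun k => k.elim0) k
      rw [h3]
      exact h2
    rw [h1, add_zero]
  -- the base
  have hb0 : ∀ x ∈ Wd (cF F) (Pr F N₀), ∀ y ∈ Wd (cF F) (Pr F N₀),
      ∀ z ∈ Wd (cF F) (Pr F N₀), P0 x y z = 0 := by
    intro x hx y hy z hz
    refine span_zero P0 ((cF F).c '' X) ?_ x (hXW hx) y (hXW hy) z (hXW hz)
    rintro _ ⟨a, ha, rfl⟩ _ ⟨b, hb, rfl⟩ _ ⟨e, he, rfl⟩
    rw [hP0a, cF_c, cF_c, cF_c, wgF_apply, hφ1]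
    exact h0 _ ⟨(a, b, e), ⟨ha, hb, he⟩, rfl⟩
  have hlam0 : ∀ i, ∀ y ∈ Wd (cF F) (Pr F N₀), lam i y = 0 := by
    intro i y hy
    rw [hlama, hb0 _ (hw0 i) _ hy _ (hv0 i), hb0 _ (hv0 i) _ hy _ (hw0 i), sub_zero, mul_zero]
  have hPb : ∀ x y, ∀ z ∈ Wd (cF F) (Pr F N₀), P x y z = P0 x y z := by
    intro x y z hz
    rw [hPa', Finset.sum_eq_zero (fun i _ => by rw [hlam0 i z hz, mul_zero]), add_zero]
  have hPwv : ∀ i z, P (ww i) (vv i) z = - lam i z := by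
    intro i z
    rw [hPsw, hPa', hP0a, wgF_apply, k5, map_zero, LinearMap.zero_apply, zero_add]
    simp [k2]
  have hω0 : ∀ (p : MQ F) (i : Fin m),
      (Tg P p - (Tg P p).flip) (vv i) (ww i) = 0 := by
    intro p i
    rw [LinearMap.sub_apply, LinearMap.sub_apply, LinearMap.flip_apply, Tg_apply, Tg_apply,
      hPwv, hPb _ _ _ (hv0 i), hPb _ _ _ (hw0 i), hPsw (vv i) (ww i) p, hPwv, hlama]
    ring
  have hTb : ∀ x ∈ Wd (cF F) (Pr F N₀), ∀ y ∈ Wd (cF F) (Pr F N₀),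
      ∀ z ∈ Wd (cF F) (Pr F N₀), Tg P x y z = 0 := by
    intro x hx y hy z hz
    rw [Tg_apply, hPb _ _ _ hy, hPb _ _ _ hx, hb0 _ hz _ hx _ hy, hb0 _ hz _ hy _ hx, add_zero]
  have hTs := Tg_sym P hPsw
  have key : ∀ N, N₀ ≤ N → ∀ x ∈ Wd (cF F) (Pr F N), ∀ y ∈ Wd (cF F) (Pr F N),
      ∀ z ∈ Wd (cF F) (Pr F N), Tg P x y z = 0 := by
    intro N hN
    refine tower' (fun s => ∀ x ∈ Wd (cF F) s, ∀ y ∈ Wd (cF F) s, ∀ z ∈ Wd (cF F) s,
      Tg P x y z = 0) N₀ hTb ?_ N hN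
    intro Q hQ hQ0 hQN s' hs1 hs2 hQs ih
    obtain ⟨L, hLW, hLi, hLK⟩ := hN₃ Q hQ hQ0 (by omega) s' hs1 hs2 hQs
    have h1 := L.stepw (Tg P) hTs (by rw [hLW]; exact ih) (hrel _)
      (hLK _ (fun x => by
        rw [LinearMap.sub_apply, LinearMap.sub_apply, LinearMap.flip_apply, sub_self])
        (fun i => hω0 L.p i))
    exact fun x hx y hy z hz => h1 x (hLi hx) y (hLi hy) z (hLi hz)
  have hT1 : ∀ x y z : 𝓞 F, Tg P ((cF F).c x) ((cF F).c y) ((cF F).c z) = 0 := by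
    intro x y z
    by_cases hx : x = 0
    · rw [hx, (cF F).zero]; simp
    by_cases hy : y = 0
    · rw [hy, (cF F).zero]; simp
    by_cases hz : z = 0
    · rw [hz, (cF F).zero]; simp
    set N := max N₀ (max (Ideal.absNorm (Ideal.span {x}) + 1)
      (max (Ideal.absNorm (Ideal.span {y}) + 1) (Ideal.absNorm (Ideal.span {z}) + 1))) with hN
    exact key N (le_max_left _ _) _ (cW' _ (mem_Sm_large hx N (by omega)))
      _ (cW' _ (mem_Sm_large hy N (by omega))) _ (cW' _ (mem_Sm_large hz N (by omega)))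
  have hT : ∀ x y z, Tg P x y z = 0 := by
    intro x y z
    refine span_zero (Tg P) (Set.range (cF F).c) (by
      rintro _ ⟨a, rfl⟩ _ ⟨b, rfl⟩ _ ⟨e, rfl⟩
      exact hT1 a b e) x (by rw [span_cF]; trivial) y (by rw [span_cF]; trivial) z
      (by rw [span_cF]; trivial)
  have hP1 : ∀ x y, P x y x = 0 := by
    intro x y
    have h1 := hT x x y
    rw [Tg_apply] at h1
    rw [hPsw]
    linarith
  -- the form
  let G : UV F →ₗ[ℤ] (UV F [⋀^Fin (1 + 1)]→ₗ[ℤ] ℚ) := AddMonoidHom.toIntLinearMap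
    { toFun := fun u => toAlt (Φ.flip ((1 : ℚ) ⊗ₜ[ℤ] u))
      map_zero' := by
        ext y
        rw [toAlt_apply, TensorProduct.tmul_zero, map_zero]
        rfl
      map_add' := fun a b => by
        ext y
        rw [AlternatingMap.add_apply, toAlt_apply, toAlt_apply, toAlt_apply,
          TensorProduct.tmul_add, map_add]
        rfl }
  have hG : ∀ u y, G u y = Φ (lq F 2 y) ((1 : ℚ) ⊗ₜ[ℤ] u) := fun u y => rfl
  obtain ⟨B, hB⟩ := uncurry (V := UV F) (k := 1) G (fun u => by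
    ext y
    rw [iz_apply, hG]
    have h1 : (Fin.cons u y : Fin 2 → UV F) = ![u, y 0] := by
      funext i
      fin_cases i <;> rfl
    rw [h1, ← wgF_apply]
    exact hP1 _ _)
  refine ⟨B, fun d => ?_⟩
  apply AlternatingMap.ext
  intro u
  have e0 : ∀ (l : LQ F 2) (x : UV F) (y : Fin 0 → UV F),
      E2r F 0 (G x) l y = Φ l ((1 : ℚ) ⊗ₜ[ℤ] x) := by
    intro l x y
    have h1 : (evA y) ∘ₗ (E2r F 0 (G x)) = Φ.flip ((1 : ℚ) ⊗ₜ[ℤ] x) := by
      apply lext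
      intro z
      rw [pair_eq z]
      change E2r F 0 (G x) (lq F 2 ![z 0, z 1]) y = Φ (lq F 2 ![z 0, z 1]) _
      rw [E2r_lq, hG]
      have h2 : (Fin.cons (z 0) (Fin.cons (z 1) y) : Fin 2 → UV F) = ![z 0, z 1] := by
        funext i
        fin_cases i <;> rfl
      rw [h2]
    exact LinearMap.congr_fun h1 l
  rw [eq_cons u]
  have e2 := E2r_iz (k := 0) B (δF F d) (u 0) (Fin.tail u)
  have e3 : iz (u 0) B = G (u 0) := hB (u 0)
  rw [e2, e3, e0, hΦδ, hφ1]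
  congr 1
  funext k
  refine Fin.cases rfl (fun k => k.elim0) k

end Pool.Agent.V8H63.NF
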