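import Pool.Agent.V8H63.NF.CohDefs

set_option autoImplicit false

/-!
# Products with the exterior power of a finite set
-/

namespace Pool.Agent.V8H63.NF

open GonP Pool.Agent.V8H63.W3

/-- the products `(ξ ⊗ y_1 ∧ ... ∧ y_j) ⊗ 1`, where `ξ ∈ B_2(F)` is the class of some
`α ∈ ℤ[P^1_F]` with `δ_2 α = 0` and `y_1, ..., y_j ∈ X` -/
def ProdX (F : Type) [Field F] (X : Finset (UV F)) (j : ℕ) : Set (TQ F 2 j) :=
  {v | ∃ (α : ZP F) (y : Fin j → UV F), delta2 F α = 0 ∧ (∀ k, y k ∈ X) ∧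
    v = toRat (tm (toQuo (R 2 F) α) (wedge y))}

end Pool.Agent.V8H63.NF
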