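import Pool.Agent.V8H63.NF.K2g

set_option autoImplicit false
set_option linter.unusedSectionVars false

/-!
# Alternating forms: contraction, products with linear forms, Koszul exactness
-/

namespace Pool.Agent.V8H63.NF

open scoped TensorProduct
open H39Gon H39Gon.TaskB H39Gon.E2 Pool.Agent.V8H63.W3

section forms

variable {V : Type} [AddCommGroup V]

/-- contraction with `z` -/
noncomputable def iz {k : ℕ} (z : V) : (V [⋀^Fin (k + 1)]→ₗ[ℤ] ℚ) →ₗ[ℚ] (V [⋀^Fin k]→ₗ[ℤ] ℚ) where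
  toFun f := f.curryLeft z
  map_add' _ _ := rfl
  map_smul' _ _ := rfl

theorem iz_apply {k : ℕ} (z : V) (f : V [⋀^Fin (k + 1)]→ₗ[ℤ] ℚ) (w : Fin k → V) :
    iz z f w = f (Fin.cons z w) := rfl

theorem iz_add {k : ℕ} (z z' : V) (f : V [⋀^Fin (k + 1)]→ₗ[ℤ] ℚ) :
    iz (z + z') f = iz z f + iz z' f := f.curryLeft.map_add z z'

theorem iz_zsmul {k : ℕ} (n : ℤ) (z : V) (f : V [⋀^Fin (k + 1)]→ₗ[ℤ] ℚ) :
    iz (n • z) f = n • iz z f := f.curryLeft.map_smul n z

theorem iz_swap {k : ℕ} (y z : V) (f : V [⋀^Fin (k + 2)]→ₗ[ℤ] ℚ) :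
    iz y (iz z f) = - iz z (iz y f) := by
  ext w
  rw [iz_apply, iz_apply, AlternatingMap.neg_apply, iz_apply, iz_apply]
  exact cons_swap f z y w

theorem iz_self {k : ℕ} (z : V) (f : V [⋀^Fin (k + 2)]→ₗ[ℤ] ℚ) : iz z (iz z f) = 0 := by
  ext w
  rw [iz_apply, iz_apply]
  exact f.map_eq_zero_of_eq _ (i := 0) (j := 1) rfl (by simp)

theorem eq_cons {k : ℕ} (u : Fin (k + 1) → V) : u = Fin.cons (u 0) (Fin.tail u) :=
  (Fin.cons_self_tail u).symm

/-- contractions as a linear map -/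
noncomputable def izL {k : ℕ} (f : V [⋀^Fin (k + 1)]→ₗ[ℤ] ℚ) : V →ₗ[ℤ] (V [⋀^Fin k]→ₗ[ℤ] ℚ) :=
  f.curryLeft

theorem izL_apply {k : ℕ} (f : V [⋀^Fin (k + 1)]→ₗ[ℤ] ℚ) (z : V) : izL f z = iz z f := rfl

/-- uncurrying -/
theorem uncurry {k : ℕ} (G : V →ₗ[ℤ] (V [⋀^Fin (k + 1)]→ₗ[ℤ] ℚ)) (hG : ∀ z, iz z (G z) = 0) :
    ∃ Ψ : V [⋀^Fin (k + 2)]→ₗ[ℤ] ℚ, ∀ z, iz z Ψ = G z := by
  let f : V →ₗ[ℤ] MultilinearMap ℤ (fun _ : Fin (k + 1) => V) ℚ :=
    (AlternatingMap.toMultilinearMapLM (S := ℤ)) ∘ₗ G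
  let m : MultilinearMap ℤ (fun _ : Fin (k + 2) => V) ℚ := LinearMap.uncurryLeft f
  have hm : ∀ u, m u = G (u 0) (Fin.tail u) := fun u => rfl
  have h0 : ∀ (u : Fin (k + 2) → V) (j : Fin (k + 1)), u 0 = u j.succ → m u = 0 := by
    intro u j h
    rw [hm]
    have h1 : Fin.tail u j = u 0 := h.symm
    by_cases hj : j = 0
    · have h2 : Fin.tail u = Fin.cons (u 0) (Fin.tail (Fin.tail u)) := by
        rw [hj] at h1
        rw [← h1]
        exact eq_cons (Fin.tail u)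
      rw [h2, ← iz_apply, hG]
      rfl
    · have h3 := (G (u 0)).map_swap (Fin.tail u) (i := 0) (j := j) (Ne.symm hj)
      have h4 : (Fin.tail u ∘ (Equiv.swap 0 j)) =
          Fin.cons (u 0) (Fin.tail (Fin.tail u ∘ (Equiv.swap 0 j))) := by
        have h6 : (Fin.tail u ∘ (Equiv.swap 0 j)) 0 = u 0 := by
          rw [Function.comp_apply, Equiv.swap_apply_left, h1]
        rw [← h6]
        exact eq_cons (Fin.tail u ∘ (Equiv.swap 0 j))
      rw [h4, ← iz_apply, hG] at h3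
      have h5 : (0 : V [⋀^Fin k]→ₗ[ℤ] ℚ) (Fin.tail (Fin.tail u ∘ (Equiv.swap 0 j))) = 0 := rfl
      rw [h5] at h3
      linarith
  refine ⟨{ m with
    map_eq_zero_of_eq' := ?_ }, fun z => ?_⟩
  · intro u i j hu hij
    change m u = 0
    rcases Fin.eq_zero_or_eq_succ i with rfl | ⟨i, rfl⟩
    · rcases Fin.eq_zero_or_eq_succ j with rfl | ⟨j, rfl⟩
      · exact absurd rfl hij
      · exact h0 u j hu
    · rcases Fin.eq_zero_or_eq_succ j with rfl | ⟨j, rfl⟩
      · exact h0 u i hu.symm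
      · rw [hm]
        exact (G (u 0)).map_eq_zero_of_eq (Fin.tail u) (i := i) (j := j) hu
          (fun h => hij (by rw [h]))
  · ext w
    rfl

/-- the product of a linear form and an alternating form -/
noncomputable def wd {k : ℕ} (l : V →ₗ[ℤ] ℚ) (b : V [⋀^Fin k]→ₗ[ℤ] ℚ) :
    V [⋀^Fin (k + 1)]→ₗ[ℤ] ℚ :=
  AlternatingMap.alternatizeUncurryFin
    (AddMonoidHom.toIntLinearMap
      { toFun := fun v => l v • b
        map_zero' := by rw [map_zero, zero_smul]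
        map_add' := fun x y => by rw [map_add, add_smul] })

theorem iz_wd {k : ℕ} (l : V →ₗ[ℤ] ℚ) (b : V [⋀^Fin (k + 1)]→ₗ[ℤ] ℚ) (z : V)
    (h : iz z b = 0) : iz z (wd l b) = l z • b := by
  ext w
  rw [iz_apply]
  unfold wd
  rw [AlternatingMap.alternatizeUncurryFin_apply, Fin.sum_univ_succ]
  have h1 : ∀ i : Fin (k + 1), (-1 : ℤ) ^ ((i.succ : Fin (k + 2)) : ℕ) •
      (AddMonoidHom.toIntLinearMap
      { toFun := fun v => l v • b
        map_zero' := by rw [map_zero, zero_smul]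
        map_add' := fun x y => by rw [map_add, add_smul] })
        ((Fin.cons z w : Fin (k + 2) → V) i.succ)
        (Fin.removeNth i.succ (Fin.cons z w : Fin (k + 2) → V)) = (0 : ℚ) := by
    intro i
    change (-1 : ℤ) ^ ((i.succ : Fin (k + 2)) : ℕ) • (l _ * b _) = 0
    have h2 : (Fin.removeNth i.succ (Fin.cons z w : Fin (k + 2) → V)) =
        Fin.cons z (Fin.removeNth i w) := by
      funext j
      refine Fin.cases ?_ (fun j => ?_) j
      · simp [Fin.removeNth]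
      · simp [Fin.removeNth]
    rw [h2, ← iz_apply, h]
    simp
  rw [Finset.sum_eq_zero (fun i _ => h1 i), add_zero]
  change (-1 : ℤ) ^ ((0 : Fin (k + 2)) : ℕ) • (l _ * b _) = l z * b w
  simp

/-- **Koszul exactness** -/
theorem koszul_fin {k : ℕ} [DecidableEq V] (B : V → (V [⋀^Fin (k + 1)]→ₗ[ℤ] ℚ)) (S : Finset V)
    (hc : ∀ q : V → ℚ, ∑ s ∈ S, q s • ((1 : ℚ) ⊗ₜ[ℤ] s : ℚ ⊗[ℤ] V) = 0 →
      ∑ s ∈ S, q s • B s = 0)
    (hs : ∀ s ∈ S, ∀ t ∈ S, iz s (B t) = - iz t (B s)) :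
    ∃ Ψ : V [⋀^Fin (k + 2)]→ₗ[ℤ] ℚ, ∀ s ∈ S, iz s Ψ = B s := by
  induction S using Finset.induction_on with
  | empty => exact ⟨0, fun s hs => absurd hs (Finset.notMem_empty s)⟩
  | insert x S hx ih =>
    obtain ⟨Ψ, hΨ⟩ := ih (by
      intro q hq
      have h1 := hc (fun s => if s = x then 0 else q s) (by
        rw [Finset.sum_insert hx, if_pos rfl, zero_smul, zero_add, ← hq]
        refine Finset.sum_congr rfl (fun s hs => ?_)
        rw [if_neg (fun h => hx (by rw [← h]; exact hs))])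
      rw [Finset.sum_insert hx, if_pos rfl, zero_smul, zero_add] at h1
      rw [← h1]
      refine Finset.sum_congr rfl (fun s hs => ?_)
      rw [if_neg (fun h => hx (by rw [← h]; exact hs))]) (fun s h1 t h2 =>
        hs s (Finset.mem_insert_of_mem h1) t (Finset.mem_insert_of_mem h2))
    by_cases hxS : (1 : ℚ) ⊗ₜ[ℤ] x ∈
        Submodule.span ℚ ((fun s : V => (1 : ℚ) ⊗ₜ[ℤ] s) '' (S : Set V))
    · refine ⟨Ψ, fun s h => ?_⟩
      rcases Finset.mem_insert.1 h with rfl | h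
      · obtain ⟨q, hq⟩ : ∃ q : V → ℚ, ∑ t ∈ S, q t • ((1 : ℚ) ⊗ₜ[ℤ] t : ℚ ⊗[ℤ] V) =
            (1 : ℚ) ⊗ₜ[ℤ] s := by
          obtain ⟨q, hq⟩ := (Submodule.mem_span_image_finset_iff_exists_fun ℚ).1 hxS
          refine ⟨fun t => if h : t ∈ S then q ⟨t, h⟩ else 0, ?_⟩
          rw [← hq, ← Finset.sum_coe_sort S]
          refine Finset.sum_congr rfl (fun t _ => ?_)
          congr 1
          exact dif_pos t.2
        have h1 := hc (fun t => if t = s then -1 else q t) (by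
          rw [Finset.sum_insert hx, if_pos rfl, neg_one_smul, ← hq, neg_add_eq_zero]
          refine Finset.sum_congr rfl (fun t ht => ?_)
          rw [if_neg (fun h => hx (by rw [← h]; exact ht))])
        rw [Finset.sum_insert hx, if_pos rfl, neg_one_smul, neg_add_eq_zero] at h1
        rw [h1]
        have h2 : iz s Ψ = lf (izL Ψ) ((1 : ℚ) ⊗ₜ[ℤ] s) := by rw [lf_apply, izL_apply]
        rw [h2, ← hq, map_sum]
        refine Finset.sum_congr rfl (fun t ht => ?_)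
        rw [map_smul, lf_apply, izL_apply, hΨ t ht,
          if_neg (fun h => hx (by rw [← h]; exact ht))]
      · exact hΨ s h
    · obtain ⟨l, hl1, hl2⟩ := exists_dual_ne hxS
      set b : V [⋀^Fin (k + 1)]→ₗ[ℤ] ℚ := B x - iz x Ψ with hb
      let l' : V →ₗ[ℤ] ℚ := AddMonoidHom.toIntLinearMap
        { toFun := fun v => (l ((1 : ℚ) ⊗ₜ[ℤ] x))⁻¹ * l ((1 : ℚ) ⊗ₜ[ℤ] v)
          map_zero' := by rw [TensorProduct.tmul_zero, map_zero, mul_zero]
          map_add' := fun a b => by rw [TensorProduct.tmul_add, map_add, mul_add] }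
      have hl' : ∀ v, l' v = (l ((1 : ℚ) ⊗ₜ[ℤ] x))⁻¹ * l ((1 : ℚ) ⊗ₜ[ℤ] v) := fun v => rfl
      have hxb : iz x b = 0 := by
        have h1 := hs x (Finset.mem_insert_self _ _) x (Finset.mem_insert_self _ _)
        have h2 : iz x (B x) = 0 := by
          have h3 : (2 : ℚ) • iz x (B x) = 0 := by
            rw [two_smul]
            nth_rewrite 1 [h1]
            rw [neg_add_cancel]
          exact (smul_eq_zero.1 h3).resolve_left two_ne_zero
        rw [hb, map_sub, h2, iz_self, sub_zero]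
      have hsb : ∀ s ∈ S, iz s b = 0 := by
        intro s h
        rw [hb, map_sub, hs s (Finset.mem_insert_of_mem h) x (Finset.mem_insert_self _ _),
          iz_swap s x, hΨ s h, sub_neg_eq_add, neg_add_cancel]
      refine ⟨Ψ + wd l' b, fun s h => ?_⟩
      rcases Finset.mem_insert.1 h with rfl | h
      · rw [map_add, iz_wd l' b s hxb, hl', inv_mul_cancel₀ hl2, one_smul, hb,
          add_sub_cancel]
      · rw [map_add, iz_wd l' b s (hsb s h), hΨ s h, hl',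
          hl1 _ (Submodule.subset_span ⟨s, h, rfl⟩), mul_zero, zero_smul, add_zero]

end forms

end Pool.Agent.V8H63.NF
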