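import Pool.Agent.V8H63.NT.Abs

set_option autoImplicit false
set_option linter.unusedSectionVars false

/-!
# The induction over the weight
-/

namespace Pool.Agent.V8H63.NF

open scoped TensorProduct
open H39Gon H39Gon.TaskB H39Gon.E2 Pool.Agent.V8H63.W3

variable {F : Type} [Field F]

/-- the functionals in question -/
structure Gd {k : ℕ} (Θ : DQ F →ₗ[ℚ] (UV F [⋀^Fin (k + 1)]→ₗ[ℤ] ℚ)) : Prop where
  ker : ∀ h, δF F h = 0 → Θ h = 0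
  dec : ∀ (x : F) (w : Fin k → UV F), x ≠ 0 →
    Θ ((1 : ℚ) ⊗ₜ[ℤ] Finsupp.single (some x) 1) (Fin.cons (cl x) w) = 0

theorem Gd.iz {k : ℕ} {Θ : DQ F →ₗ[ℚ] (UV F [⋀^Fin (k + 1 + 1)]→ₗ[ℤ] ℚ)} (h : Gd Θ) (z : UV F) :
    Gd (NF.iz z ∘ₗ Θ) where
  ker d hd := by rw [LinearMap.comp_apply, h.ker d hd, map_zero]
  dec x w hx := by
    rw [LinearMap.comp_apply, iz_apply, cons_swap, h.dec x _ hx, neg_zero]

/-- the functionals `A(δ · ∧ ·)` -/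
noncomputable def pb {k : ℕ} (A : UV F [⋀^Fin (k + 2)]→ₗ[ℤ] ℚ) :
    DQ F →ₗ[ℚ] (UV F [⋀^Fin k]→ₗ[ℤ] ℚ) := (E2r F k A) ∘ₗ (δF F)

theorem pb_apply {k : ℕ} (A : UV F [⋀^Fin (k + 2)]→ₗ[ℤ] ℚ) (d : DQ F) :
    pb A d = E2r F k A (δF F d) := rfl

theorem pb_good {k : ℕ} (A : UV F [⋀^Fin (k + 1 + 2)]→ₗ[ℤ] ℚ) : Gd (pb A) where
  ker d hd := by rw [pb_apply, hd, map_zero]
  dec x w hx := by
    rw [pb_apply, δF_some, E2r_lq]
    exact A.map_eq_zero_of_eq _ (i := Fin.succ 0) (j := Fin.succ (Fin.succ 0)) rfl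
      (fun h => absurd (Fin.succ_injective _ h) (Fin.succ_ne_zero _).symm)

theorem Gd.sub {k : ℕ} {Θ Θ' : DQ F →ₗ[ℚ] (UV F [⋀^Fin (k + 1)]→ₗ[ℤ] ℚ)} (h : Gd Θ)
    (h' : Gd Θ') : Gd (Θ - Θ') where
  ker d hd := by rw [LinearMap.sub_apply, h.ker d hd, h'.ker d hd, sub_zero]
  dec x w hx := by
    rw [LinearMap.sub_apply, AlternatingMap.sub_apply, h.dec x w hx, h'.dec x w hx, sub_zero]

variable (F) in
/-- finitely many conditions force a functional to be of the form `A(δ · ∧ ·)` -/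
def TT (k : ℕ) : Prop := ∃ 𝒲 : Set (DQ F × (Fin (k + 1) → UV F)), 𝒲.Finite ∧
  ∀ Θ : DQ F →ₗ[ℚ] (UV F [⋀^Fin (k + 1)]→ₗ[ℤ] ℚ), Gd Θ → (∀ q ∈ 𝒲, Θ q.1 q.2 = 0) →
    ∃ B : UV F [⋀^Fin (k + 1 + 2)]→ₗ[ℤ] ℚ, ∀ d, Θ d = E2r F (k + 1) B (δF F d)

theorem TT_step (X₀ : Set (UV F)) (hX₀ : X₀.Finite) (hg : GenX X₀) (k : ℕ) (h : TT F k) :
    TT F (k + 1) := by
  classical
  obtain ⟨𝒲, h𝒲, hT⟩ := h
  obtain ⟨𝒴₀, h𝒴₀, hap₀⟩ := approx X₀ hX₀ (k + 1)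
  set X₁ : Set (UV F) := X₀ ∪ ((fun q : DQ F × (Fin (k + 1) → UV F) => q.2 0) '' 𝒲 ∪
    (fun q : DQ F × (Fin (k + 1) → UV F) => q.2 0) '' 𝒴₀) with hX₁def
  have hX₁ : X₁.Finite := hX₀.union ((h𝒲.image _).union (h𝒴₀.image _))
  have hsub : X₀ ⊆ X₁ := Set.subset_union_left
  have hW1 : ∀ q ∈ 𝒲, q.2 0 ∈ X₁ := fun q hq => Or.inr (Or.inl ⟨q, hq, rfl⟩)
  have hY1 : ∀ q ∈ 𝒴₀, q.2 0 ∈ X₁ := fun q hq => Or.inr (Or.inr ⟨q, hq, rfl⟩)
  have hg₁ : GenX X₁ := hg.mono hsub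
  obtain ⟨𝒴₁, h𝒴₁, hap₁⟩ := approx X₁ hX₁ (k + 1)
  refine ⟨(fun p : UV F × (DQ F × (Fin (k + 1) → UV F)) =>
    ((p.2.1, Fin.cons p.1 p.2.2) : DQ F × (Fin (k + 1 + 1) → UV F))) '' (X₁ ×ˢ (𝒲 ∪ 𝒴₁)),
    (hX₁.prod (h𝒲.union h𝒴₁)).image _, ?_⟩
  intro Θ hΘ h0
  have hz : ∀ y ∈ X₁, ∀ q ∈ 𝒲 ∪ 𝒴₁, iz y (Θ q.1) q.2 = 0 := by
    intro y hy q hq
    exact h0 (q.1, Fin.cons y q.2) ⟨(y, q), ⟨hy, hq⟩, rfl⟩
  -- the forms `A_y`, `y ∈ X₁`
  have s1 : ∀ y ∈ X₁, ∃ A : UV F [⋀^Fin (k + 1 + 2)]→ₗ[ℤ] ℚ,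
      (∀ d, iz y (Θ d) = E2r F (k + 1) A (δF F d)) ∧
      ∀ u : Fin (k + 1 + 2) → UV F, (∀ i, u i ∈ X₁) → A u = 0 := by
    intro y hy
    obtain ⟨A, hA⟩ := hT (iz y ∘ₗ Θ) (hΘ.iz y) (fun q hq => hz y hy q (Or.inl hq))
    obtain ⟨C, hC, hCA⟩ := hap₁ A (fun q hq => by
      rw [← hA]
      exact hz y hy q (Or.inr hq))
    refine ⟨A - C, fun d => ?_, fun u hu => ?_⟩
    · rw [map_sub, LinearMap.sub_apply, hC d, sub_zero, ← hA]
      rfl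
    · rw [AlternatingMap.sub_apply, hCA u hu, sub_self]
  choose! A hA hA0 using s1
  have hcons : ∀ {X : Set (UV F)} {n : ℕ} {y : UV F} {u : Fin n → UV F}, y ∈ X →
      (∀ i, u i ∈ X) → ∀ i, (Fin.cons y u : Fin (n + 1) → UV F) i ∈ X := by
    intro X n y u hy hu i
    refine Fin.cases ?_ (fun i => ?_) i
    · exact hy
    · exact hu i
  have s2 : ∀ y ∈ X₁, ∀ y' ∈ X₁, iz y (A y') = - iz y' (A y) := by
    intro y hy y' hy'
    rw [← add_eq_zero_iff_eq_neg]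
    refine uniq hg₁ k _ (fun d => ?_) (fun u hu => ?_)
    · rw [map_add, LinearMap.add_apply, ← iz_E2r, ← iz_E2r]
      have e1 := hA y hy d
      have e2 := hA y' hy' d
      rw [← e1, ← e2, iz_swap, neg_add_cancel]
    · rw [AlternatingMap.add_apply, iz_apply, iz_apply, hA0 y' hy' _ (hcons hy hu),
        hA0 y hy _ (hcons hy' hu), add_zero]
  have s3 : ∀ q : UV F → ℚ, ∑ s ∈ hX₁.toFinset, q s • ((1 : ℚ) ⊗ₜ[ℤ] s : ℚ ⊗[ℤ] UV F) = 0 →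
      ∑ s ∈ hX₁.toFinset, q s • A s = 0 := by
    intro q hq
    refine uniq hg₁ (k + 1) _ (fun d => ?_) (fun u hu => ?_)
    · rw [map_sum, LinearMap.sum_apply]
      have e1 : ∀ s ∈ hX₁.toFinset, E2r F (k + 1) (q s • A s) (δF F d) =
          lf (izL (Θ d)) (q s • ((1 : ℚ) ⊗ₜ[ℤ] s)) := by
        intro s hs
        have e2 := hA s (hX₁.mem_toFinset.1 hs) d
        rw [map_smul, LinearMap.smul_apply, ← e2, map_smul, lf_apply, izL_apply]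
      rw [Finset.sum_congr rfl e1, ← map_sum, hq, map_zero]
    · have e1 : ∀ T : Finset (UV F), (∑ s ∈ T, q s • A s) u = ∑ s ∈ T, q s * A s u := by
        intro T
        induction T using Finset.induction_on with
        | empty => simp
        | insert a T ha ih =>
          rw [Finset.sum_insert ha, Finset.sum_insert ha, AlternatingMap.add_apply, ih]
          rfl
      rw [e1]
      refine Finset.sum_eq_zero (fun s hs => ?_)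
      rw [hA0 s (hX₁.mem_toFinset.1 hs) u hu, mul_zero]
  have s4 : ∀ z, ∃ Ψ : UV F [⋀^Fin (k + 1 + 2)]→ₗ[ℤ] ℚ, ∀ y ∈ X₁, iz y Ψ = - iz z (A y) := by
    intro z
    obtain ⟨Ψ, hΨ⟩ := koszul_fin (k := k + 1) (fun y => - iz z (A y)) hX₁.toFinset (by
      intro q hq
      have e1 : ∑ s ∈ hX₁.toFinset, q s • (- iz z (A s)) =
          - iz z (∑ s ∈ hX₁.toFinset, q s • A s) := by
        rw [map_sum, ← Finset.sum_neg_distrib]
        refine Finset.sum_congr rfl (fun s _ => ?_)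
        rw [map_smul, smul_neg]
      rw [e1, s3 q hq, map_zero, neg_zero]) (by
      intro s hs t ht
      rw [map_neg, map_neg, iz_swap s z, s2 s (hX₁.mem_toFinset.1 hs) t (hX₁.mem_toFinset.1 ht),
        map_neg, neg_neg, iz_swap t z, neg_neg])
    exact ⟨Ψ, fun y hy => hΨ y (hX₁.mem_toFinset.2 hy)⟩
  have s5 : ∀ z, ∃ A' : UV F [⋀^Fin (k + 1 + 2)]→ₗ[ℤ] ℚ,
      (∀ d, iz z (Θ d) = E2r F (k + 1) A' (δF F d)) ∧ ∀ y ∈ X₀, iz y A' = - iz z (A y) := by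
    intro z
    obtain ⟨Ψ, hΨ⟩ := s4 z
    have l1 : ∀ d, ∀ y ∈ X₁, iz y (iz z (Θ d)) = iz y (E2r F (k + 1) Ψ (δF F d)) := by
      intro d y hy
      rw [iz_swap, hA y hy d, iz_E2r, iz_E2r, hΨ y hy, map_neg, LinearMap.neg_apply]
    have l2 : ∀ d (u : Fin (k + 1) → UV F), u 0 ∈ X₁ →
        (iz z (Θ d) - E2r F (k + 1) Ψ (δF F d)) u = 0 := by
      intro d u hu
      rw [eq_cons u, AlternatingMap.sub_apply, ← iz_apply, ← iz_apply, l1 d _ hu, sub_self]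
    obtain ⟨B, hB⟩ := hT (iz z ∘ₗ Θ - pb Ψ) ((hΘ.iz z).sub (pb_good Ψ))
      (fun q hq => l2 q.1 q.2 (hW1 q hq))
    have hB' : ∀ d, E2r F (k + 1) B (δF F d) = iz z (Θ d) - E2r F (k + 1) Ψ (δF F d) :=
      fun d => (hB d).symm
    obtain ⟨C, hC, hCB⟩ := hap₀ B (fun q hq => by
      rw [hB']
      exact l2 q.1 q.2 (hY1 q hq))
    have l3 : ∀ d, iz z (Θ d) = E2r F (k + 1) (Ψ + (B - C)) (δF F d) := by
      intro d
      rw [map_add, map_sub, LinearMap.add_apply, LinearMap.sub_apply, hC d, sub_zero, hB',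
        add_sub_cancel]
    refine ⟨Ψ + (B - C), l3, fun y hy => ?_⟩
    rw [← add_eq_zero_iff_eq_neg]
    refine uniq hg k _ (fun d => ?_) (fun u hu => ?_)
    · rw [map_add, LinearMap.add_apply, ← iz_E2r, ← iz_E2r, ← l3, ← hA y (hsub hy) d, iz_swap,
        neg_add_cancel]
    · rw [map_add, hΨ y (hsub hy), AlternatingMap.add_apply, AlternatingMap.add_apply,
        AlternatingMap.neg_apply, iz_apply y (B - C), AlternatingMap.sub_apply,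
        hCB _ (hcons hy hu), sub_self, add_zero, neg_add_cancel]
  choose G hG1 hG2 using s5
  have s6 : ∀ z A', (∀ d, iz z (Θ d) = E2r F (k + 1) A' (δF F d)) →
      (∀ y ∈ X₀, iz y A' = - iz z (A y)) → A' = G z := by
    intro z A' h1 h2
    rw [← sub_eq_zero]
    refine uniq hg (k + 1) _ (fun d => ?_) (fun u hu => ?_)
    · rw [map_sub, LinearMap.sub_apply, ← h1, ← hG1, sub_self]
    · rw [eq_cons u, ← iz_apply, map_sub, h2 _ (hu 0), hG2 _ _ (hu 0), sub_self]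
      rfl
  have s7 : ∀ z z', G (z + z') = G z + G z' := by
    intro z z'
    refine (s6 (z + z') _ (fun d => ?_) (fun y hy => ?_)).symm
    · rw [iz_add, hG1, hG1, map_add, LinearMap.add_apply]
    · rw [map_add, hG2 z y hy, hG2 z' y hy, iz_add, neg_add]
  have s70 : G 0 = 0 := by
    have := s7 0 0
    rw [add_zero] at this
    exact left_eq_add.1 this
  let Glin : UV F →ₗ[ℤ] (UV F [⋀^Fin (k + 1 + 2)]→ₗ[ℤ] ℚ) := AddMonoidHom.toIntLinearMap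
    { toFun := G
      map_zero' := s70
      map_add' := s7 }
  have s8 : ∀ z, iz z (G z) = 0 := by
    intro z
    refine uniq hg k _ (fun d => ?_) (fun u hu => ?_)
    · rw [← iz_E2r, ← hG1, iz_self]
    · rw [eq_cons u, ← iz_apply, iz_swap, hG2 z _ (hu 0), map_neg, neg_neg, iz_self]
      rfl
  obtain ⟨Ψ, hΨ⟩ := uncurry (V := UV F) (k := k + 2) Glin (fun z => s8 z)
  refine ⟨Ψ, fun d => ?_⟩
  apply AlternatingMap.ext
  intro u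
  have e1 : iz (u 0) Ψ = G (u 0) := hΨ (u 0)
  rw [eq_cons u]
  have e2 := E2r_iz (k := k + 1) Ψ (δF F d) (u 0) (Fin.tail u)
  rw [e2, e1, ← hG1]
  rfl

end Pool.Agent.V8H63.NF
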