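import Pool.Agent.V8H63.NT.Ind

set_option autoImplicit false
set_option linter.unusedSectionVars false

/-!
# The step for trilinear forms, without the vanishing of `K_2`
-/

namespace Pool.Agent.V8H63.NF

open NumberField Pool.Agent.V8H63.W3

section loc

variable {A : Type} [CommRing A] [IsDomain A] {M : Type} [AddCommGroup M] [Module ℚ M]
  {c : Cm A M} (L : Loc c)

/-- `ω` vanishes if the symbols of bounded size do -/
def Loc.K2w (L : Loc c) (ω : M →ₗ[ℚ] M →ₗ[ℚ] ℚ) : Prop :=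
  (∀ a b, a ∈ L.sm → b ∈ L.sm → a - b ∈ L.sm → a ∈ L.S 147 → b ∈ L.S 98 → tau c ω a b = 0) →
  ∀ x ∈ L.W, ∀ y ∈ L.W, ω x y = 0

theorem Loc.partBw (ω : M →ₗ[ℚ] M →ₗ[ℚ] ℚ) (t : M →ₗ[ℚ] ℚ) (hω : ∀ x, ω x x = 0)
    (H : HB L ω t) (hK : L.K2w ω) : (∀ x ∈ L.W, ∀ y ∈ L.W, ω x y = 0) ∧
    ∀ x ∈ L.W, t x = 0 := by
  have h0 : ∀ x ∈ L.W, ∀ y ∈ L.W, ω x y = 0 := hK (fun a b ha hb hab haS hbS =>
    L.tau_zero ω t hω H a b ha hb hab haS hbS)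
  refine ⟨h0, L.lin_zero t (fun a ha haS b hb hbS hab => ?_)⟩
  by_cases hk : b - a = 0
  · rw [sub_eq_zero.1 hk]
  have hd := L.diff (b - a) hk (by rw [map_sub, hab, sub_self])
    (L.mono 148 _ (by norm_num) (L.sub _ _ _ (L.mono _ _ (by norm_num) hbS) haS))
  have h1 := H a b (b - a) (L.sm0 ha) (L.sm0 hb) hk (L.cW ha) (L.cW hb) hd (by ring)
  unfold tt at h1
  rw [h0 _ (L.cW ha) _ hd, h0 _ hd _ (L.cW hb), h0 _ (L.cW hb) _ (L.cW ha)] at h1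
  linarith

variable (T : M →ₗ[ℚ] M →ₗ[ℚ] M →ₗ[ℚ] ℚ) (hsym : Sym T)
  (h0 : ∀ x ∈ L.W, ∀ y ∈ L.W, ∀ z ∈ L.W, T x y z = 0)

include hsym h0

theorem Loc.stepBw (hrel : RelU c (L.W ⊔ Submodule.span ℚ {L.p}) T)
    (hK : L.K2w (T L.p - (T L.p).flip)) : (∀ x ∈ L.W, ∀ y ∈ L.W, T L.p x y = 0) ∧
    ∀ x ∈ L.W, T L.p L.p x = 0 := by
  have hrel' := hrel.mono (le_sup_left : L.W ≤ _)
  set ω : M →ₗ[ℚ] M →ₗ[ℚ] ℚ := T L.p - (T L.p).flip with hω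
  have hωe : ∀ x y, ω x y = T L.p x y - T L.p y x := fun x y => rfl
  have hωa : ∀ x, ω x x = 0 := fun x => by rw [hωe, sub_self]
  have hH : HB L ω (T L.p L.p) := by
    intro a b k ha hb hk haW hbW hkW e
    have e2 : c.c k - c.c b = ((c.c k - L.p) - c.c b) + L.p := by abel
    have hκ : (c.c k - L.p) - c.c b ∈ L.W := Submodule.sub_mem _ hkW hbW
    have h1 := hrel k a b hk ha hb (by rw [← e]; ring) (by
      rw [e2]
      exact Submodule.add_mem_sup hκ (Submodule.mem_span_singleton_self _))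
    rw [e2] at h1
    have hu : c.c a - c.c b ∈ L.W := Submodule.sub_mem _ haW hbW
    have h2 : tt ω (c.c a) (c.c k - L.p) (c.c b) =
        ω (c.c a - c.c b) ((c.c k - L.p) - c.c b) := by
      set k' := c.c k - L.p
      unfold tt
      simp only [map_sub, LinearMap.sub_apply, hωa]
      rw [alt_swap ω hωa k' (c.c b), alt_swap ω hωa (c.c b) (c.c a)]
      ring
    have h3 := L.stepA' T hsym h0 hrel' _ _ hu hκ
    rw [h2, hωe, h3, ← map_sub]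
    set κ := (c.c k - L.p) - c.c b with hκ'
    set u := c.c a - c.c b with hu'
    have h4 : T (κ + L.p) (κ + L.p) u =
        T κ κ u + T κ L.p u + T L.p κ u + T L.p L.p u := by
      simp only [map_add, LinearMap.add_apply]
      ring
    rw [h4, h0 κ hκ κ hκ u hu, hsym.s κ L.p u] at h1
    linarith
  obtain ⟨hb1, hb2⟩ := L.partBw ω (T L.p L.p) hωa hH hK
  refine ⟨fun x hx y hy => ?_, hb2⟩
  have h2 := hb1 x hx y hy
  rw [hωe] at h2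
  have h3 := L.stepA' T hsym h0 hrel' _ _ hx hy
  linarith

/-- one step of the induction -/
theorem Loc.stepw (hrel : RelU c (L.W ⊔ Submodule.span ℚ {L.p}) T)
    (hK : L.K2w (T L.p - (T L.p).flip)) : ∀ x ∈ L.W ⊔ Submodule.span ℚ {L.p},
    ∀ y ∈ L.W ⊔ Submodule.span ℚ {L.p}, ∀ z ∈ L.W ⊔ Submodule.span ℚ {L.p}, T x y z = 0 := by
  have hA := L.stepA T hsym h0 (hrel.mono le_sup_left)
  obtain ⟨hB1, hB2⟩ := L.stepBw T hsym h0 hrel hK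
  have hC : ∀ x ∈ L.W, T L.p x L.p = 0 := by
    intro x hx
    have h1 := hsym.two L.p x
    rw [hB2 x hx] at h1
    linarith
  have e : L.W ⊔ Submodule.span ℚ {L.p} = Submodule.span ℚ ((L.W : Set M) ∪ {L.p}) := by
    rw [Submodule.span_union, Submodule.span_eq]
  rw [e]
  refine span_zero T _ ?_
  rintro x (hx | rfl) y (hy | rfl) z (hz | rfl)
  · exact h0 x hx y hy z hz
  · exact hA x hx y hy
  · rw [hsym.s]
    exact hB1 x hx z hz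
  · rw [hsym.s]
    exact hC x hx
  · exact hB1 y hy z hz
  · exact hC y hy
  · exact hB2 z hz
  · exact hsym.three L.p

end loc

section kk

variable {F : Type} [Field F] [NumberField F] {M : Type} [AddCommGroup M] [Module ℚ M]
  (c : Cm (𝓞 F) M) (P₀ : (M →ₗ[ℚ] M →ₗ[ℚ] ℚ) → Prop)

/-- the vanishing of `K_2` modulo finitely many symbols, in terms of finitely many relations -/
def K2finP : Prop := ∀ x y : 𝓞 F, x ≠ 0 → y ≠ 0 → ∃ X : Set (𝓞 F × 𝓞 F), X.Finite ∧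
  (∀ q ∈ X, q.1 ≠ 0 ∧ q.2 ≠ 0 ∧ q.1 - q.2 ≠ 0) ∧
  ∀ ω : M →ₗ[ℚ] M →ₗ[ℚ] ℚ, (∀ x, ω x x = 0) → P₀ ω → (∀ q ∈ X, tau c ω q.1 q.2 = 0) →
    ω (c.c x) (c.c y) = 0

theorem K2_baseP (hK : K2finP c P₀) (N : ℕ) : ∃ X : Set (𝓞 F × 𝓞 F), X.Finite ∧
    (∀ q ∈ X, q.1 ≠ 0 ∧ q.2 ≠ 0 ∧ q.1 - q.2 ≠ 0) ∧
    ∀ ω : M →ₗ[ℚ] M →ₗ[ℚ] ℚ, (∀ x, ω x x = 0) → P₀ ω → (∀ q ∈ X, tau c ω q.1 q.2 = 0) →
      ∀ x ∈ Wd c (Pr F N), ∀ y ∈ Wd c (Pr F N), ω x y = 0 := by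
  obtain ⟨X, hX, hXs, hXW⟩ := Wd_fg c N
  choose! 𝒳 hf h0 hω using hK
  refine ⟨⋃ x ∈ X, ⋃ y ∈ X, 𝒳 x y, ?_, ?_, ?_⟩
  · exact hX.biUnion fun x hx => hX.biUnion fun y hy => hf x y (hXs hx).1 (hXs hy).1
  · intro q hq
    simp only [Set.mem_iUnion] at hq
    obtain ⟨x, hx, y, hy, hq⟩ := hq
    exact h0 x y (hXs hx).1 (hXs hy).1 q hq
  · intro ω hωa hP hωX x hx y hy
    refine bil_span ω (c.c '' X) (c.c '' X) ?_ x (hXW hx) y (hXW hy)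
    rintro _ ⟨a, ha, rfl⟩ _ ⟨b, hb, rfl⟩
    refine hω a b (hXs ha).1 (hXs hb).1 ω hωa hP (fun q hq => hωX q ?_)
    simp only [Set.mem_iUnion]
    exact ⟨a, ha, b, hb, hq⟩

/-- the local data exist for all primes of large norm -/
theorem exists_locP (hK : K2finP c P₀) :
    ∃ N₃ : ℕ, ∀ P : Ideal (𝓞 F), P.IsPrime → P ≠ ⊥ →
    N₃ ≤ Ideal.absNorm P → ∀ s, Pr F (Ideal.absNorm P) ⊆ s →
      s ⊆ Pr F (Ideal.absNorm P + 1) → P ∉ s →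
        ∃ L : Loc c, L.W = Wd c s ∧ Wd c (insert P s) ≤ L.W ⊔ Submodule.span ℚ {L.p} ∧
          ∀ ω : M →ₗ[ℚ] M →ₗ[ℚ] ℚ, (∀ x, ω x x = 0) → P₀ ω → L.K2w ω := by
  obtain ⟨N₂, hN₂⟩ := gen_small c
  obtain ⟨X, hX, hX0, hXω⟩ := K2_baseP c P₀ hK N₂
  obtain ⟨B₁, hB₁⟩ := house_bound _ (hX.image Prod.fst)
  obtain ⟨B₂, hB₂⟩ := house_bound _ (hX.image Prod.snd)
  obtain ⟨N₄, hN₄⟩ := Yp_large F (max B₁ B₂)
  obtain ⟨M₁, hM₁⟩ := norm_bound _ (hX.image Prod.fst)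
  obtain ⟨M₂, hM₂⟩ := norm_bound _ (hX.image Prod.snd)
  obtain ⟨M₃, hM₃⟩ := norm_bound _ (hX.image fun q => q.1 - q.2)
  refine ⟨max N₂ (max N₄ (max M₁ (max M₂ M₃))), fun P hP hP0 hPN s hs hs' hPs => ?_⟩
  have g1 : N₂ ≤ Ideal.absNorm P := by omega
  have g2 : N₄ ≤ Ideal.absNorm P := by omega
  have g3 : M₁ ≤ Ideal.absNorm P := by omega
  have g4 : M₂ ≤ Ideal.absNorm P := by omega
  have g5 : M₃ ≤ Ideal.absNorm P := by omega
  obtain ⟨hY, hgen⟩ := hN₂ P hP hP0 g1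
  obtain ⟨π, hπ0, hπP, hπ, hπn, hπS, hW⟩ := exists_pi' c hP hP0 hY hs
  have hsmall : ∀ q ∈ X, q.1 ∈ Sm s ∧ q.2 ∈ Sm s ∧ q.1 - q.2 ∈ Sm s ∧
      house (q.1 : F) ≤ Yp F (Ideal.absNorm P) ^ 147 ∧
      house (q.2 : F) ≤ Yp F (Ideal.absNorm P) ^ 98 := by
    intro q hq
    obtain ⟨h1, h2, h3⟩ := hX0 q hq
    have i1 : q.1 ∈ (fun q : 𝓞 F × 𝓞 F => q.1) '' X := ⟨q, hq, rfl⟩
    have i2 : q.2 ∈ (fun q : 𝓞 F × 𝓞 F => q.2) '' X := ⟨q, hq, rfl⟩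
    have i3 : q.1 - q.2 ∈ (fun q : 𝓞 F × 𝓞 F => q.1 - q.2) '' X := ⟨q, hq, rfl⟩
    have hYB := hN₄ _ g2
    exact ⟨Sm_of_lt h1 ((hM₁ _ i1).trans_le g3) hs,
      Sm_of_lt h2 ((hM₂ _ i2).trans_le g4) hs, Sm_of_lt h3 ((hM₃ _ i3).trans_le g5) hs,
      (hB₁ _ i1).trans (le_Y97 hY ((le_max_left _ _).trans hYB) _ (by norm_num)),
      (hB₂ _ i2).trans (le_Y97 hY ((le_max_right _ _).trans hYB) _ (by norm_num))⟩
  refine ⟨mkLoc c hP hP0 hY hs hPs hπ0 hπP hπn (hgen s hs hs'), rfl, hW, ?_⟩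
  intro ω hω hPω hωs
  change ∀ x ∈ Wd c s, ∀ y ∈ Wd c s, ω x y = 0
  have hωs' : ∀ a b, a ∈ Sm s → b ∈ Sm s → a - b ∈ Sm s →
      house (a : F) ≤ Yp F (Ideal.absNorm P) ^ 147 →
      house (b : F) ≤ Yp F (Ideal.absNorm P) ^ 98 → tau c ω a b = 0 := hωs
  have key : s ⊆ s → ∀ x ∈ Wd c s, ∀ y ∈ Wd c s, ω x y = 0 := by
    refine tower (fun s' => s' ⊆ s → ∀ x ∈ Wd c s', ∀ y ∈ Wd c s', ω x y = 0) N₂ ?_ ?_
      (Ideal.absNorm P) g1 s hs hs'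
    · intro _
      refine hXω ω hω hPω (fun q hq => ?_)
      obtain ⟨h1, h2, h3, h4, h5⟩ := hsmall q hq
      exact hωs' q.1 q.2 h1 h2 h3 h4 h5
    · intro Q hQ hQ0 hQN s' hs1 hs2 hQs ih hsub
      obtain ⟨hYQ, hgenQ⟩ := hN₂ Q hQ hQ0 hQN
      obtain ⟨π', hπ0', hπQ', hπ', hπn', hπS', hW'⟩ := exists_pi' c hQ hQ0 hYQ hs1
      have hsub' : s' ⊆ s := (Set.subset_insert _ _).trans hsub
      have ih' := ih hsub'
      have hQP : Ideal.absNorm Q ≤ Ideal.absNorm P := by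
        have h1 := (hs' (hsub (Set.mem_insert _ _))).2.2
        omega
      have h2 := (mkLoc c hQ hQ0 hYQ hs1 hQs hπ0' hπQ' hπn' (hgenQ s' hs1 hs2)).tate ω hω ih' (by
        intro a b ha hb hk hρ haS hbS
        have ha' : a ∈ Sm s' := ha
        have hb' : b ∈ Sm s' := hb
        have haS' : house (a : F) ≤ Yp F (Ideal.absNorm Q) ^ 147 := haS
        have hbS' : house (b : F) ≤ Yp F (Ideal.absNorm Q) ^ 98 := hbS
        have hρ' : Ideal.Quotient.mk Q a = Ideal.Quotient.mk Q b := hρ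
        have h1Y : 1 ≤ Yp F (Ideal.absNorm Q) := (one_le_Cst F).trans hYQ
        have hmem : a - b ∈ Q := (Ideal.Quotient.eq).1 hρ'
        have hS : house ((a - b : 𝓞 F) : F) ≤ Yp F (Ideal.absNorm Q) ^ 191 :=
          (mkLoc c hQ hQ0 hYQ hs1 hQs hπ0' hπQ' hπn' (hgenQ s' hs1 hs2)).mono 148 191
            (by norm_num) ((mkLoc c hQ hQ0 hYQ hs1 hQs hπ0' hπQ' hπn'
              (hgenQ s' hs1 hs2)).sub 147 a b haS ((mkLoc c hQ hQ0 hYQ hs1 hQs hπ0' hπQ' hπn'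
              (hgenQ s' hs1 hs2)).mono 98 147 (by norm_num) hbS))
        obtain ⟨J, hJ, hJ'⟩ := cofactor hs1 hk hmem (norm_lt_of_house191 hYQ hS)
        refine hωs' a b (Sm_mono hsub' ha') (Sm_mono hsub' hb') ⟨hk, fun R hR hkR => ?_⟩
          (haS'.trans (pow_le_pow_left₀ (Yp_nonneg F _) (Yp_mono F hQP) _))
          (hbS'.trans (pow_le_pow_left₀ (Yp_nonneg F _) (Yp_mono F hQP) _))
        have h1 : Q * J ≤ R := by rw [← hJ, Ideal.span_singleton_le_iff_mem]; exact hkR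
        rcases hR.mul_le.1 h1 with h2 | h2
        · have h3 := (hQ.isMaximal hQ0).eq_of_le hR.ne_top h2
          rw [← h3]
          exact hsub (Set.mem_insert _ _)
        · exact hsub' (hJ' R hR h2))
      have h2' : ∀ x ∈ Wd c s', ω (c.c π') x = 0 := h2
      have e : Wd c s' ⊔ Submodule.span ℚ {c.c π'} =
          Submodule.span ℚ ((Wd c s' : Set M) ∪ {c.c π'}) := by
        rw [Submodule.span_union, Submodule.span_eq]
      rw [e] at hW'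
      intro x hx y hy
      refine bil_span ω _ _ ?_ x (hW' hx) y (hW' hy)
      rintro x (hx | rfl) y (hy | rfl)
      · exact ih' x hx y hy
      · rw [alt_swap ω hω, h2' x hx, neg_zero]
      · exact h2' y hy
      · exact hω _
  exact key subset_rfl

end kk

end Pool.Agent.V8H63.NF
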