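import Pool.Agent.V8H63.NT.Base

set_option autoImplicit false
set_option linter.unusedSectionVars false

/-!
# Functionals not assumed to vanish on the kernel of `δ`
-/

namespace Pool.Agent.V8H63.NF

open NumberField Pool.Agent.V8H63.W3

section kk

variable {F : Type} [Field F] [NumberField F] {M : Type} [AddCommGroup M] [Module ℚ M]
  (c : Cm (𝓞 F) M) (P₀ : (M →ₗ[ℚ] M →ₗ[ℚ] ℚ) → Prop)

/-- the local data exist for all primes of large norm -/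
theorem exists_locPQ (hK : K2finP c P₀) (Q : Set (𝓞 F × 𝓞 F)) (hQf : Q.Finite)
    (hQ0 : ∀ q ∈ Q, q.1 ≠ 0 ∧ q.2 ≠ 0 ∧ q.1 - q.2 ≠ 0) :
    ∃ N₃ : ℕ, ∀ P : Ideal (𝓞 F), P.IsPrime → P ≠ ⊥ →
    N₃ ≤ Ideal.absNorm P → ∀ s, Pr F (Ideal.absNorm P) ⊆ s →
      s ⊆ Pr F (Ideal.absNorm P + 1) → P ∉ s →
        ∃ L : Loc c, L.W = Wd c s ∧ Wd c (insert P s) ≤ L.W ⊔ Submodule.span ℚ {L.p} ∧
          (∀ ω : M →ₗ[ℚ] M →ₗ[ℚ] ℚ, (∀ x, ω x x = 0) → P₀ ω → L.K2w ω) ∧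
          ∀ q ∈ Q, q.1 ∈ L.sm ∧ q.2 ∈ L.sm ∧ q.1 - q.2 ∈ L.sm ∧ q.1 ∈ L.S 147 ∧ q.2 ∈ L.S 98 := by
  obtain ⟨N₂, hN₂⟩ := gen_small c
  obtain ⟨X', hX', hX0', hXω⟩ := K2_baseP c P₀ hK N₂
  set X := X' ∪ Q with hXdef
  have hX : X.Finite := hX'.union hQf
  have hX0 : ∀ q ∈ X, q.1 ≠ 0 ∧ q.2 ≠ 0 ∧ q.1 - q.2 ≠ 0 := fun q hq => hq.elim (hX0' q) (hQ0 q)
  obtain ⟨B₁, hB₁⟩ := house_bound _ (hX.image Prod.fst)
  obtain ⟨B₂, hB₂⟩ := house_bound _ (hX.image Prod.snd)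
  obtain ⟨N₄, hN₄⟩ := Yp_large F (max B₁ B₂)
  obtain ⟨M₁, hM₁⟩ := norm_bound _ (hX.image Prod.fst)
  obtain ⟨M₂, hM₂⟩ := norm_bound _ (hX.image Prod.snd)
  obtain ⟨M₃, hM₃⟩ := norm_bound _ (hX.image fun q => q.1 - q.2)
  refine ⟨max N₂ (max N₄ (max M₁ (max M₂ M₃))), fun P hP hP0 hPN s hs hs' hPs => ?_⟩
  have g1 : N₂ ≤ Ideal.absNorm P := by omega
  have g2 : N₄ ≤ Ideal.absNorm P := by omega
  have g3 : M₁ ≤ Ideal.absNorm P := by omega
  have g4 : M₂ ≤ Ideal.absNorm P := by omega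
  have g5 : M₃ ≤ Ideal.absNorm P := by omega
  obtain ⟨hY, hgen⟩ := hN₂ P hP hP0 g1
  obtain ⟨π, hπ0, hπP, hπ, hπn, hπS, hW⟩ := exists_pi' c hP hP0 hY hs
  have hsmall : ∀ q ∈ X, q.1 ∈ Sm s ∧ q.2 ∈ Sm s ∧ q.1 - q.2 ∈ Sm s ∧
      house (q.1 : F) ≤ Yp F (Ideal.absNorm P) ^ 147 ∧
      house (q.2 : F) ≤ Yp F (Ideal.absNorm P) ^ 98 := by
    intro q hq
    obtain ⟨h1, h2, h3⟩ := hX0 q hq
    have i1 : q.1 ∈ (fun q : 𝓞 F × 𝓞 F => q.1) '' X := ⟨q, hq, rfl⟩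
    have i2 : q.2 ∈ (fun q : 𝓞 F × 𝓞 F => q.2) '' X := ⟨q, hq, rfl⟩
    have i3 : q.1 - q.2 ∈ (fun q : 𝓞 F × 𝓞 F => q.1 - q.2) '' X := ⟨q, hq, rfl⟩
    have hYB := hN₄ _ g2
    exact ⟨Sm_of_lt h1 ((hM₁ _ i1).trans_le g3) hs,
      Sm_of_lt h2 ((hM₂ _ i2).trans_le g4) hs, Sm_of_lt h3 ((hM₃ _ i3).trans_le g5) hs,
      (hB₁ _ i1).trans (le_Y97 hY ((le_max_left _ _).trans hYB) _ (by norm_num)),
      (hB₂ _ i2).trans (le_Y97 hY ((le_max_right _ _).trans hYB) _ (by norm_num))⟩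
  refine ⟨mkLoc c hP hP0 hY hs hPs hπ0 hπP hπn (hgen s hs hs'), rfl, hW, ?_,
    fun q hq => hsmall q (Or.inr hq)⟩
  intro ω hω hPω hωs
  change ∀ x ∈ Wd c s, ∀ y ∈ Wd c s, ω x y = 0
  have hωs' : ∀ a b, a ∈ Sm s → b ∈ Sm s → a - b ∈ Sm s →
      house (a : F) ≤ Yp F (Ideal.absNorm P) ^ 147 →
      house (b : F) ≤ Yp F (Ideal.absNorm P) ^ 98 → tau c ω a b = 0 := hωs
  have key : s ⊆ s → ∀ x ∈ Wd c s, ∀ y ∈ Wd c s, ω x y = 0 := by
    refine tower (fun s' => s' ⊆ s → ∀ x ∈ Wd c s', ∀ y ∈ Wd c s', ω x y = 0) N₂ ?_ ?_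
      (Ideal.absNorm P) g1 s hs hs'
    · intro _
      refine hXω ω hω hPω (fun q hq => ?_)
      obtain ⟨h1, h2, h3, h4, h5⟩ := hsmall q (Or.inl hq)
      exact hωs' q.1 q.2 h1 h2 h3 h4 h5
    · intro R' hQ hQ0' hQN s' hs1 hs2 hQs ih hsub
      obtain ⟨hYQ, hgenQ⟩ := hN₂ R' hQ hQ0' hQN
      obtain ⟨π', hπ0', hπQ', hπ', hπn', hπS', hW'⟩ := exists_pi' c hQ hQ0' hYQ hs1
      have hsub' : s' ⊆ s := (Set.subset_insert _ _).trans hsub
      have ih' := ih hsub'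
      have hQP : Ideal.absNorm R' ≤ Ideal.absNorm P := by
        have h1 := (hs' (hsub (Set.mem_insert _ _))).2.2
        omega
      have h2 := (mkLoc c hQ hQ0' hYQ hs1 hQs hπ0' hπQ' hπn' (hgenQ s' hs1 hs2)).tate ω hω ih' (by
        intro a b ha hb hk hρ haS hbS
        have ha' : a ∈ Sm s' := ha
        have hb' : b ∈ Sm s' := hb
        have haS' : house (a : F) ≤ Yp F (Ideal.absNorm R') ^ 147 := haS
        have hbS' : house (b : F) ≤ Yp F (Ideal.absNorm R') ^ 98 := hbS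
        have hρ' : Ideal.Quotient.mk R' a = Ideal.Quotient.mk R' b := hρ
        have h1Y : 1 ≤ Yp F (Ideal.absNorm R') := (one_le_Cst F).trans hYQ
        have hmem : a - b ∈ R' := (Ideal.Quotient.eq).1 hρ'
        have hS : house ((a - b : 𝓞 F) : F) ≤ Yp F (Ideal.absNorm R') ^ 191 :=
          (mkLoc c hQ hQ0' hYQ hs1 hQs hπ0' hπQ' hπn' (hgenQ s' hs1 hs2)).mono 148 191
            (by norm_num) ((mkLoc c hQ hQ0' hYQ hs1 hQs hπ0' hπQ' hπn'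
              (hgenQ s' hs1 hs2)).sub 147 a b haS ((mkLoc c hQ hQ0' hYQ hs1 hQs hπ0' hπQ' hπn'
              (hgenQ s' hs1 hs2)).mono 98 147 (by norm_num) hbS))
        obtain ⟨J, hJ, hJ'⟩ := cofactor hs1 hk hmem (norm_lt_of_house191 hYQ hS)
        refine hωs' a b (Sm_mono hsub' ha') (Sm_mono hsub' hb') ⟨hk, fun R hR hkR => ?_⟩
          (haS'.trans (pow_le_pow_left₀ (Yp_nonneg F _) (Yp_mono F hQP) _))
          (hbS'.trans (pow_le_pow_left₀ (Yp_nonneg F _) (Yp_mono F hQP) _))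
        have h1 : R' * J ≤ R := by rw [← hJ, Ideal.span_singleton_le_iff_mem]; exact hkR
        rcases hR.mul_le.1 h1 with h2 | h2
        · have h3 := (hQ.isMaximal hQ0').eq_of_le hR.ne_top h2
          rw [← h3]
          exact hsub (Set.mem_insert _ _)
        · exact hsub' (hJ' R hR h2))
      have h2' : ∀ x ∈ Wd c s', ω (c.c π') x = 0 := h2
      have e : Wd c s' ⊔ Submodule.span ℚ {c.c π'} =
          Submodule.span ℚ ((Wd c s' : Set M) ∪ {c.c π'}) := by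
        rw [Submodule.span_union, Submodule.span_eq]
      rw [e] at hW'
      intro x hx y hy
      refine bil_span ω _ _ ?_ x (hW' hx) y (hW' hy)
      rintro x (hx | rfl) y (hy | rfl)
      · exact ih' x hx y hy
      · rw [alt_swap ω hω, h2' x hx, neg_zero]
      · exact h2' y hy
      · exact hω _
  exact key subset_rfl

end kk

section stp

variable {A : Type} [CommRing A] [IsDomain A] {M D : Type} [AddCommGroup M] [Module ℚ M]
  [AddCommGroup D] [Module ℚ D] {c : Cm A M} (L : Loc c) (sb : A → A → D)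
  (φ : D →ₗ[ℚ] M →ₗ[ℚ] ℚ) (P : M →ₗ[ℚ] M →ₗ[ℚ] M →ₗ[ℚ] ℚ)

/-- the form `½ (P(p, x; y) - P(p, y; x))` -/
noncomputable def om (p : M) : M →ₗ[ℚ] M →ₗ[ℚ] ℚ := (1 / 2 : ℚ) • (P p - (P p).flip)

theorem om_apply (p x y : M) : om P p x y = (1 / 2 : ℚ) * (P p x y - P p y x) := rfl

theorem om_self (p x : M) : om P p x x = 0 := by rw [om_apply, sub_self, mul_zero]

/-- one step -/
theorem Loc.stepQ (hPs : ∀ x y z, P x y z = - P y x z)
    (hft : ∀ y, Ft (fun a b => φ (sb a b) y))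
    (hdec : ∀ a b, a ≠ 0 → b ≠ 0 → a - b ≠ 0 → φ (sb a b) (c.c a - c.c b) = 0)
    (hPφ : ∀ a b, a ≠ 0 → b ≠ 0 → a - b ≠ 0 → ∀ y ∈ L.W,
      φ (sb a b) y = P (c.c (a - b) - c.c b) (c.c a - c.c b) y)
    (hrel : RelU c L.W (Tg P))
    (hT : ∀ x ∈ L.W, ∀ y ∈ L.W, ∀ z ∈ L.W, Tg P x y z = 0)
    (a b : A) (q1 : a ∈ L.sm) (q2 : b ∈ L.sm) (q3 : a - b ∈ L.sm) (q4 : a ∈ L.S 147)
    (q5 : b ∈ L.S 98) : φ (sb a b) L.p = tau c (om P L.p) a b := by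
  have hA := L.stepA (Tg P) (Tg_sym P hPs) hT hrel
  set ω : M →ₗ[ℚ] M →ₗ[ℚ] ℚ := om P L.p with hωdef
  have hωe : ∀ x y, ω x y = (1 / 2 : ℚ) * (P L.p x y - P L.p y x) := fun x y => rfl
  have hωa : ∀ x, ω x x = 0 := fun x => om_self P _ x
  have hωW : ∀ x ∈ L.W, ∀ y ∈ L.W, ω x y = P L.p x y := by
    intro x hx y hy
    have h1 := hA x hx y hy
    rw [Tg_apply] at h1
    rw [hωe]
    linarith
  have hdec' : ∀ a b : A, a ≠ 0 → b ≠ 0 → a - b ≠ 0 →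
      φ (sb a b) (c.c (a - b) - c.c b) = 0 := by
    intro a b ha hb hab
    have hba : b - a ≠ 0 := by
      rw [← neg_sub]
      exact neg_ne_zero.2 hab
    have hd : b - a - b ≠ 0 := by
      have : b - a - b = -a := by ring
      rw [this]
      exact neg_ne_zero.2 ha
    have h1 := hdec (b - a) b hba hb hd
    have h2 := (hft (c.c (b - a) - c.c b)).osub a b ha hb hab
    have h3 : c.c (b - a) = c.c (a - b) := by rw [← neg_sub a b, c.neg]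
    rw [h1, h3] at h2
    linarith
  have hk : ∀ a b k : A, a ≠ 0 → b ≠ 0 → k ≠ 0 → c.c a ∈ L.W → c.c b ∈ L.W →
      c.c k - L.p ∈ L.W → a + k = b →
      φ (sb a b) L.p = - ω (c.c a - c.c b) ((c.c k - L.p) - c.c b) := by
    intro a b k ha hb hk haW hbW hkW e
    have hab : a - b = -k := by rw [← e]; ring
    have hab0 : a - b ≠ 0 := by rw [hab]; exact neg_ne_zero.2 hk
    have h1 := hdec' a b ha hb hab0
    have h2 : c.c (a - b) = c.c k := by rw [hab, c.neg]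
    have h3 : c.c k - c.c b = L.p + ((c.c k - L.p) - c.c b) := by abel
    have hu : (c.c k - L.p) - c.c b ∈ L.W := Submodule.sub_mem _ hkW hbW
    have hZ : c.c a - c.c b ∈ L.W := Submodule.sub_mem _ haW hbW
    have h4 := hPφ a b ha hb hab0 _ hu
    rw [h2, h3] at h1 h4
    set u := (c.c k - L.p) - c.c b with hu'
    set Z := c.c a - c.c b with hZ'
    rw [map_add] at h1
    rw [map_add, LinearMap.add_apply, LinearMap.add_apply, ← hωW Z hZ u hu] at h4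
    have h5 := hT u hu u hu Z hZ
    rw [Tg_apply, hPs Z u u] at h5
    linarith
  set G : A → A → ℚ := fun a b => φ (sb a b) L.p - tau c ω a b with hG
  have hGF : Ft G := (hft L.p).sub (tau_Ft c ω hωa)
  have hGH : HG L G (ω L.p) := by
    intro a b k ha hb hk0 haW hbW hkW e
    have h1 := hk a b k ha hb hk0 haW hbW hkW e
    have hab : a - b = -k := by rw [← e]; ring
    have h2 : c.c (a - b) = c.c k := by rw [hab, c.neg]
    simp only [hG]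
    rw [h1]
    unfold tau tt
    rw [h2]
    have e3 : c.c k = L.p + (c.c k - L.p) := by abel
    set k' := c.c k - L.p with hk'
    rw [e3]
    simp only [map_add, map_sub, LinearMap.add_apply, LinearMap.sub_apply, hωa]
    rw [alt_swap ω hωa (c.c b) L.p, alt_swap ω hωa (c.c b) k', alt_swap ω hωa k' (c.c a)]
    ring
  have h2 := L.G_zero G (ω L.p) hGF hGH a b q1 q2 q3 q4 q5
  simp only [hG] at h2
  linarith

end stp

end Pool.Agent.V8H63.NF
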