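import Pool.Agent.V8H63.NT.Orth

set_option autoImplicit false
set_option linter.unusedSectionVars false

/-!
# Finitely many conditions force a functional to vanish on the kernel of `δ`
-/

namespace Pool.Agent.V8H63.NF

open scoped TensorProduct
open NumberField H39Gon H39Gon.TaskB H39Gon.E2 Pool.Agent.V8H63.W3

variable {F : Type} [Field F] [NumberField F]

theorem orth_zero (Q : Set (𝓞 F × 𝓞 F)) (hQf : Q.Finite)
    (hQ0 : ∀ q ∈ Q, q.1 ≠ 0 ∧ q.2 ≠ 0 ∧ q.1 - q.2 ≠ 0) (H : Set (DQ F)) (hH : H.Finite) :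
    ∃ 𝒲 : Set (DQ F × (Fin (0 + 1) → UV F)), 𝒲.Finite ∧
      ∀ Θ : ZP F →ₗ[ℤ] (UV F [⋀^Fin (0 + 1)]→ₗ[ℤ] ℚ), Good Q Θ →
        (∀ h, δF F h = 0 → ∃ h' ∈ Submodule.span ℚ H, lf Θ h = lf Θ h') →
        (∀ q ∈ 𝒲, lf Θ q.1 q.2 = 0) → ∀ h, δF F h = 0 → lf Θ h = 0 := by
  classical
  obtain ⟨X₀, hX₀, hg⟩ := K2gen_lq (F := F)
  obtain ⟨m, v, w, κ, s, k1, k2, k3, k4, k5⟩ := exists_compl hX₀ hg
  obtain ⟨N₃, hN₃⟩ := exists_locPQ (cF F) _ (K2finP_of k3) Q hQf hQ0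
  obtain ⟨N₁, hN₁⟩ := Wd_top_fin v
  obtain ⟨N₂, hN₂⟩ := Wd_top_fin w
  set N₀ := max N₃ (max N₁ N₂) with hN₀
  obtain ⟨X, hX, hXs, hXW⟩ := Wd_fg (cF F) N₀
  set vv : Fin m → MQ F := fun i => (1 : ℚ) ⊗ₜ[ℤ] v i with hvv
  set ww : Fin m → MQ F := fun i => (1 : ℚ) ⊗ₜ[ℤ] w i with hww
  have hv0 : ∀ i, vv i ∈ Wd (cF F) (Pr F N₀) := fun i => hN₁ N₀ (by omega) i
  have hw0 : ∀ i, ww i ∈ Wd (cF F) (Pr F N₀) := fun i => hN₂ N₀ (by omega) i
  refine ⟨(fun q : 𝓞 F × 𝓞 F × 𝓞 F => (s (lq F 2 ![cl (q.1 : F), cl (q.2.1 : F)]),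
    fun _ => cl (q.2.2 : F))) '' (X ×ˢ X ×ˢ X) ∪
      (fun q : DQ F × 𝓞 F => (q.1, fun _ => cl (q.2 : F))) '' (H ×ˢ X),
    ((hX.prod (hX.prod hX)).image _).union ((hH.prod hX).image _), ?_⟩
  intro Θ hΘ hΘH h0
  -- the functional on `D ⊗ M`
  set φ : DQ F →ₗ[ℚ] MQ F →ₗ[ℚ] ℚ := evQ F ∘ₗ (lf Θ) with hφ
  have hφ1 : ∀ d u, φ d ((1 : ℚ) ⊗ₜ[ℤ] u) = lf Θ d (fun _ => u) := fun d u => evQ_apply _ _
  set P0 : MQ F →ₗ[ℚ] MQ F →ₗ[ℚ] MQ F →ₗ[ℚ] ℚ := (wgF F).compr₂ (φ ∘ₗ s) with hP0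
  have hP0a : ∀ x y z, P0 x y z = φ (s (wgF F x y)) z := fun x y z => rfl
  set lam : Fin m → MQ F →ₗ[ℚ] ℚ := fun i =>
    (1 / 2 : ℚ) • ((P0 (ww i)).flip (vv i) - (P0 (vv i)).flip (ww i)) with hlam
  have hlama : ∀ i y, lam i y = (1 / 2 : ℚ) * (P0 (ww i) y (vv i) - P0 (vv i) y (ww i)) :=
    fun i y => rfl
  set Φ : LQ F 2 →ₗ[ℚ] MQ F →ₗ[ℚ] ℚ := φ ∘ₗ s + ∑ i, (κ i).smulRight (lam i) with hΦ
  have hΦa : ∀ l y, Φ l y = φ (s l) y + ∑ i, κ i l * lam i y := by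
    intro l y
    rw [hΦ, LinearMap.add_apply, LinearMap.add_apply, LinearMap.comp_apply, LinearMap.sum_apply,
      LinearMap.sum_apply]
    rfl
  have hΦδ : ∀ d y, (∀ h, δF F h = 0 → φ h y = 0) → Φ (δF F d) y = φ d y := by
    intro d y hy
    rw [hΦa]
    have h1 := hy (d - s (δF F d)) (by rw [map_sub, k4, sub_self])
    rw [map_sub, LinearMap.sub_apply, sub_eq_zero] at h1
    rw [h1]
    simp [k1]
  set P : MQ F →ₗ[ℚ] MQ F →ₗ[ℚ] MQ F →ₗ[ℚ] ℚ := (wgF F).compr₂ Φ with hP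
  have hPa : ∀ x y z, P x y z = Φ (wgF F x y) z := fun x y z => rfl
  have hPa' : ∀ x y z, P x y z = P0 x y z + ∑ i, κ i (wgF F x y) * lam i z :=
    fun x y z => hΦa _ _
  have hwsw : ∀ x y, wgF F x y = - wgF F y x := by
    intro x y
    have h := wgF_self (x + y)
    simp only [map_add, LinearMap.add_apply, wgF_self] at h
    rw [zero_add, add_zero, add_comm] at h
    exact eq_neg_of_add_eq_zero_left h
  have hPsw : ∀ x y z, P x y z = - P y x z := by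
    intro x y z
    rw [hPa, hPa, hwsw, map_neg, LinearMap.neg_apply]
  have hft : ∀ y, Ft (fun a b => φ (sbF a b) y) := by
    intro y
    let θ : ZP F →ₗ[ℤ] ℚ := AddMonoidHom.toIntLinearMap
      { toFun := fun α => φ ((1 : ℚ) ⊗ₜ[ℤ] α) y
        map_zero' := by rw [TensorProduct.tmul_zero, map_zero]; rfl
        map_add' := fun a b => by rw [TensorProduct.tmul_add, map_add]; rfl }
    have hθ : ∀ r ∈ R 2 F, θ r = 0 := by
      intro r hr
      change φ ((1 : ℚ) ⊗ₜ[ℤ] r) y = 0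
      rw [hφ, LinearMap.comp_apply, lf_apply, hΘ.r r hr, map_zero]
      rfl
    exact Ft_of_r2 θ hθ
  have hdec : ∀ a b : 𝓞 F, a ≠ 0 → b ≠ 0 → a - b ≠ 0 →
      φ (sbF a b) ((cF F).c a - (cF F).c b) = 0 := by
    intro a b ha hb _
    have ha' : (a : F) ≠ 0 := by simpa using ha
    have hb' : (b : F) ≠ 0 := by simpa using hb
    rw [cF_c, cF_c, ← TensorProduct.tmul_sub, ← cl_div ha' hb', hφ1]
    change lf Θ ((1 : ℚ) ⊗ₜ[ℤ] Finsupp.single (some ((a : F) / b)) 1) _ = 0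
    rw [lf_apply]
    have h1 := hΘ.dec ((a : F) / b) Fin.elim0 (div_ne_zero ha' hb')
    convert h1 using 2
    funext k
    refine Fin.cases rfl (fun k => k.elim0) k
  have hrel : ∀ U : Submodule ℚ (MQ F), (∀ h, δF F h = 0 → ∀ y ∈ U, φ h y = 0) →
      RelU (cF F) U (Tg P) := by
    intro U hU a b e ha hb he hab hx
    have hk : a - e = -b := by rw [← hab]; ring
    have hk0 : a - e ≠ 0 := by rw [hk]; exact neg_ne_zero.2 hb
    have hk' : (cF F).c (a - e) = (cF F).c b := by rw [hk, (cF F).neg]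
    rw [Tg_apply, hPa, ← hk', ← δsbF a e ha he hk0, hΦδ _ _ (fun h hh => hU h hh _ hx),
      hdec a e ha he hk0, add_zero]
  -- the base
  have hb0 : ∀ x ∈ Wd (cF F) (Pr F N₀), ∀ y ∈ Wd (cF F) (Pr F N₀),
      ∀ z ∈ Wd (cF F) (Pr F N₀), P0 x y z = 0 := by
    intro x hx y hy z hz
    refine span_zero P0 ((cF F).c '' X) ?_ x (hXW hx) y (hXW hy) z (hXW hz)
    rintro _ ⟨a, ha, rfl⟩ _ ⟨b, hb, rfl⟩ _ ⟨e, he, rfl⟩
    rw [hP0a, cF_c, cF_c, cF_c, wgF_apply, hφ1]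
    exact h0 _ (Or.inl ⟨(a, b, e), ⟨ha, hb, he⟩, rfl⟩)
  have hlam0 : ∀ i, ∀ y ∈ Wd (cF F) (Pr F N₀), lam i y = 0 := by
    intro i y hy
    rw [hlama, hb0 _ (hw0 i) _ hy _ (hv0 i), hb0 _ (hv0 i) _ hy _ (hw0 i), sub_zero, mul_zero]
  have hPb : ∀ x y, ∀ z ∈ Wd (cF F) (Pr F N₀), P x y z = P0 x y z := by
    intro x y z hz
    rw [hPa', Finset.sum_eq_zero (fun i _ => by rw [hlam0 i z hz, mul_zero]), add_zero]
  have hPwv : ∀ i z, P (ww i) (vv i) z = - lam i z := by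
    intro i z
    rw [hPsw, hPa', hP0a, wgF_apply, k5, map_zero, LinearMap.zero_apply, zero_add]
    simp [k2]
  have hω0 : ∀ (p : MQ F) (i : Fin m),
      (Tg P p - (Tg P p).flip) (vv i) (ww i) = 0 := by
    intro p i
    rw [LinearMap.sub_apply, LinearMap.sub_apply, LinearMap.flip_apply, Tg_apply, Tg_apply,
      hPwv, hPb _ _ _ (hv0 i), hPb _ _ _ (hw0 i), hPsw (vv i) (ww i) p, hPwv, hlama]
    ring
  have hTb : ∀ x ∈ Wd (cF F) (Pr F N₀), ∀ y ∈ Wd (cF F) (Pr F N₀),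
      ∀ z ∈ Wd (cF F) (Pr F N₀), Tg P x y z = 0 := by
    intro x hx y hy z hz
    rw [Tg_apply, hPb _ _ _ hy, hPb _ _ _ hx, hb0 _ hz _ hx _ hy, hb0 _ hz _ hy _ hx, add_zero]
  have hOb : ∀ h, δF F h = 0 → ∀ y ∈ Wd (cF F) (Pr F N₀), φ h y = 0 := by
    intro h hh y hy
    obtain ⟨h', hh', he⟩ := hΘH h hh
    have e1 : φ h = φ h' := by rw [hφ, LinearMap.comp_apply, LinearMap.comp_apply, he]
    rw [e1]
    have h1 : Submodule.span ℚ ((cF F).c '' X) ≤ LinearMap.ker (φ h') := by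
      rw [Submodule.span_le]
      rintro _ ⟨a, ha, rfl⟩
      rw [SetLike.mem_coe, LinearMap.mem_ker]
      have h2 : Submodule.span ℚ H ≤ LinearMap.ker (φ.flip ((cF F).c a)) := by
        rw [Submodule.span_le]
        intro k hk
        rw [SetLike.mem_coe, LinearMap.mem_ker, LinearMap.flip_apply, cF_c, hφ1]
        exact h0 _ (Or.inr ⟨(k, a), ⟨hk, ha⟩, rfl⟩)
      exact h2 hh'
    exact h1 (hXW hy)
  have hTs := Tg_sym P hPsw
  have key : ∀ N, N₀ ≤ N → (∀ h, δF F h = 0 → ∀ y ∈ Wd (cF F) (Pr F N), φ h y = 0) ∧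
      ∀ x ∈ Wd (cF F) (Pr F N), ∀ y ∈ Wd (cF F) (Pr F N),
      ∀ z ∈ Wd (cF F) (Pr F N), Tg P x y z = 0 := by
    intro N hN
    refine tower' (fun s => (∀ h, δF F h = 0 → ∀ y ∈ Wd (cF F) s, φ h y = 0) ∧
      ∀ x ∈ Wd (cF F) s, ∀ y ∈ Wd (cF F) s, ∀ z ∈ Wd (cF F) s,
      Tg P x y z = 0) N₀ ⟨hOb, hTb⟩ ?_ N hN
    rintro R' hR hR0 hRN s' hs1 hs2 hRs ⟨ih1, ih2⟩
    obtain ⟨L, hLW, hLi, hLK, hLQ⟩ := hN₃ R' hR hR0 (by omega) s' hs1 hs2 hRs
    rw [← hLW] at ih1 ih2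
    -- products
    have hOp : ∀ h, δF F h = 0 → φ h L.p = 0 := by
      intro h hh
      obtain ⟨h', hh', hs', he⟩ := hΘ.fin h hh
      have e1 : φ h = φ h' := by rw [hφ, LinearMap.comp_apply, LinearMap.comp_apply, he]
      rw [e1]
      obtain ⟨f, hf⟩ := facF (om P L.p) (fun x => om_self P _ x)
      have key : h' ∈ LinearMap.ker (φ.flip L.p - f ∘ₗ δF F) := by
        have h1 : Submodule.span ℚ ((fun q : 𝓞 F × 𝓞 F => sbF q.1 q.2) '' Q) ≤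
            LinearMap.ker (φ.flip L.p - f ∘ₗ δF F) := by
          rw [Submodule.span_le]
          rintro _ ⟨q, hq, rfl⟩
          obtain ⟨q1, q2, q3, q4, q5⟩ := hLQ q hq
          have h2 := L.stepQ sbF φ P hPsw hft hdec (fun a b ha hb hab y hy => by
            rw [hPa, ← δsbF a b ha hb hab, hΦδ _ _ (fun h hh => ih1 h hh y hy)])
            (hrel L.W ih1) ih2 q.1 q.2 q1 q2 q3 q4 q5
          simp only [SetLike.mem_coe, LinearMap.mem_ker, LinearMap.sub_apply,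
            LinearMap.flip_apply, LinearMap.comp_apply]
          rw [h2, δsbF _ _ (L.sm0 q1) (L.sm0 q2) (L.sm0 q3), hf]
          have hωa : ∀ x, om P L.p x x = 0 := fun x => om_self P _ x
          unfold tau tt
          simp only [map_sub, LinearMap.sub_apply, hωa]
          rw [alt_swap (om P L.p) hωa ((cF F).c q.1) ((cF F).c q.2),
            alt_swap (om P L.p) hωa ((cF F).c q.2) ((cF F).c (q.1 - q.2))]
          ring
        exact h1 hs'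
      have key' : φ h' L.p - f (δF F h') = 0 := key
      rw [hh', map_zero, sub_zero] at key'
      exact key'
    have hO1 : ∀ h, δF F h = 0 → ∀ y ∈ L.W ⊔ Submodule.span ℚ {L.p}, φ h y = 0 := by
      intro h hh y hy
      obtain ⟨w, hw, z, hz, rfl⟩ := Submodule.mem_sup.1 hy
      obtain ⟨q, rfl⟩ := Submodule.mem_span_singleton.1 hz
      rw [map_add, map_smul, ih1 h hh w hw, hOp h hh, smul_zero, add_zero]
    have h1 := L.stepw (Tg P) hTs ih2 (hrel _ hO1)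
      (hLK _ (fun x => by
        rw [LinearMap.sub_apply, LinearMap.sub_apply, LinearMap.flip_apply, sub_self])
        (fun i => hω0 L.p i))
    exact ⟨fun h hh y hy => hO1 h hh y (hLi hy),
      fun x hx y hy z hz => h1 x (hLi hx) y (hLi hy) z (hLi hz)⟩
  intro h hh
  have hall : ∀ x : 𝓞 F, φ h ((cF F).c x) = 0 := by
    intro x
    by_cases hx : x = 0
    · rw [hx, (cF F).zero]; simp
    set N := max N₀ (Ideal.absNorm (Ideal.span {x}) + 1) with hN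
    exact (key N (le_max_left _ _)).1 h hh _ (cW' _ (mem_Sm_large hx N (by omega)))
  have hall' : ∀ y, φ h y = 0 := by
    intro y
    have h1 : Submodule.span ℚ (Set.range (cF F).c) ≤ LinearMap.ker (φ h) := by
      rw [Submodule.span_le]
      rintro _ ⟨a, rfl⟩
      exact hall a
    exact h1 (by rw [span_cF]; trivial)
  apply AlternatingMap.ext
  intro u
  have h1 := hall' ((1 : ℚ) ⊗ₜ[ℤ] u 0)
  rw [hφ1] at h1
  have e : u = fun _ => u 0 := by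
    funext k
    refine Fin.cases rfl (fun k => k.elim0) k
  rw [e]
  exact h1

end Pool.Agent.V8H63.NF
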