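import Pool.Agent.V8H63.NT.Base
import Pool.Agent.V8H63.NT.Defs
import Pool.Agent.V8H63.NF.Out2

set_option autoImplicit false
set_option linter.unusedSectionVars false

/-!
# Number fields: finiteness in degree `n - 1`
-/

namespace Pool.Agent.V8H63.NF

open scoped TensorProduct
open NumberField GonP Pool.Agent.V8H63.W3

variable {F : Type} [Field F]

/-- finitely many elements of the kernel suffice -/
theorem finS {j : ℕ} (A P : Set (H39Gon.TQ F 2 j)) (hA : ∀ v ∈ A, H39Gon.e1e F j v = 0)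
    (hP : P.Finite) (h : ∀ u, H39Gon.e1e F j u = 0 → u ∈ Submodule.span ℚ (A ∪ P)) :
    ∃ S : Set (H39Gon.TQ F 2 j), S.Finite ∧ (∀ v ∈ S, H39Gon.e1e F j v = 0) ∧
      ∀ u, H39Gon.e1e F j u = 0 → u ∈ Submodule.span ℚ (A ∪ S) := by
  haveI : FiniteDimensional ℚ (Submodule.span ℚ P) := FiniteDimensional.span_of_finite ℚ hP
  have hfd : FiniteDimensional ℚ
      (Submodule.span ℚ P ⊓ LinearMap.ker (H39Gon.e1e F j) : Submodule ℚ (H39Gon.TQ F 2 j)) :=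
    Submodule.finiteDimensional_inf_left _ _
  obtain ⟨T, hT⟩ := (Submodule.fg_top _).1 hfd.fg_top
  refine ⟨T, T.finite_toSet, ?_, ?_⟩
  · intro v hv
    have h1 : v ∈ (Submodule.span ℚ P ⊓ LinearMap.ker (H39Gon.e1e F j) :
        Submodule ℚ (H39Gon.TQ F 2 j)) := by
      rw [← hT]
      exact Submodule.subset_span hv
    exact h1.2
  · intro u hu
    have h1 := h u hu
    rw [Submodule.span_union] at h1 ⊢
    obtain ⟨a, ha, p, hp, rfl⟩ := Submodule.mem_sup.1 h1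
    have h2 := ker_span hA ha
    rw [map_add, h2, zero_add] at hu
    refine Submodule.add_mem_sup ha ?_
    rw [hT]
    exact ⟨hp, hu⟩

/-- functionals which are pulled back -/
theorem pull {j : ℕ} (φ : H39Gon.TQ F 2 (j + 1) →ₗ[ℚ] ℚ)
    (B : H39Gon.UV F [⋀^Fin (j + 1 + 2)]→ₗ[ℤ] ℚ)
    (hB : ∀ d, lf (H39Gon.E2.toTheta φ) d = E2r F (j + 1) B (δF F d)) (u : H39Gon.TQ F 2 (j + 1))
    (hu : H39Gon.e1e F (j + 1) u = 0) : φ u = 0 := by
  have h1 : φ = (H39Gon.E2.ofAlt B) ∘ₗ (H39Gon.e1e F (j + 1)) := by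
    apply H39Gon.E2.text
    intro x y
    have h2 : H39Gon.tq F 2 (j + 1) x y = emb y ((1 : ℚ) ⊗ₜ[ℤ] Finsupp.single x 1) := by
      rw [emb_apply]
      rfl
    rw [LinearMap.comp_apply, h2, chi_e', ← hB, toTheta_emb]
  rw [h1, LinearMap.comp_apply, hu, map_zero]

theorem gd_of {j : ℕ} (φ : H39Gon.TQ F 2 (j + 1) →ₗ[ℚ] ℚ) (h1 : ∀ v ∈ SDec F j, φ v = 0)
    (h2 : ∀ v ∈ Pool.Agent.V8H63.W3.SProd F (j + 1), φ v = 0) :
    Gd (lf (H39Gon.E2.toTheta φ)) where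
  ker h hh := by
    obtain ⟨l, hl⟩ := H39Gon.C4.exists_ext (H39Gon.delta2 F) (H39Gon.E2.toTheta φ) (by
      intro α hα
      ext y
      exact h2 _ ⟨α, y, hα, rfl⟩)
    have h4 : lf (H39Gon.E2.toTheta φ) = (lf l) ∘ₗ (δF F) := by
      apply dq_ext
      intro x
      rw [LinearMap.comp_apply, lf_apply, δF_apply, lf_apply, hl]
      rfl
    rw [h4, LinearMap.comp_apply, hh, map_zero]
  dec x w hx := by
    rw [lf_apply, H39Gon.E2.toTheta_apply]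
    exact h1 _ ⟨x, w, hx, rfl⟩

theorem finP (j : ℕ) (hT : TT F j) : ∃ P : Set (H39Gon.TQ F 2 (j + 1)), P.Finite ∧
    ∀ u, H39Gon.e1e F (j + 1) u = 0 →
      u ∈ Submodule.span ℚ (SDec F j ∪ Pool.Agent.V8H63.W3.SProd F (j + 1) ∪ P) := by
  obtain ⟨𝒲, h𝒲, hT⟩ := hT
  refine ⟨(fun q => emb q.2 q.1) '' 𝒲, h𝒲.image _, fun u hu => ?_⟩
  by_contra hn
  obtain ⟨φ, h1, h2⟩ := H39Gon.E2.exists_dual_ne hn
  apply h2
  obtain ⟨B, hB⟩ := hT (lf (H39Gon.E2.toTheta φ))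
    (gd_of φ (fun v hv => h1 v (Submodule.subset_span (Or.inl (Or.inl hv))))
      (fun v hv => h1 v (Submodule.subset_span (Or.inl (Or.inr hv))))) (fun q hq => by
      rw [toTheta_emb]
      exact h1 _ (Submodule.subset_span (Or.inr ⟨q, hq, rfl⟩)))
  exact pull φ B hB u hu

/-- products with entries in a finite set -/
theorem prodX {X₀ : Set (H39Gon.UV F)} (hg : GenX X₀) (j : ℕ) :
    Pool.Agent.V8H63.W3.SProd F (j + 2) ⊆ Submodule.span ℚ (SDec F (j + 1) ∪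
      {v | ∃ (α : H39Gon.ZP F) (y : Fin (j + 2) → H39Gon.UV F), H39Gon.delta2 F α = 0 ∧
        (∀ k, y k ∈ X₀) ∧ v = emb y ((1 : ℚ) ⊗ₜ[ℤ] α)}) := by
  rintro _ ⟨α, y, hα, rfl⟩
  by_contra hn
  obtain ⟨φ, h1, h2⟩ := H39Gon.E2.exists_dual_ne hn
  apply h2
  have hδ : δF F ((1 : ℚ) ⊗ₜ[ℤ] α) = 0 := by
    rw [δF_apply, show H39Gon.delta2 F α = 0 from hα, TensorProduct.tmul_zero]
  have h3 : lf (H39Gon.E2.toTheta φ) ((1 : ℚ) ⊗ₜ[ℤ] α) = 0 := by
    refine uniq hg j _ (fun d => ?_) (fun u hu => ?_)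
    · ext w
      rw [pair_sym (i := j) (H39Gon.E2.toTheta φ) (fun r hr => H39Gon.E2.toTheta_R φ r hr) (by
        intro x w hx
        rw [H39Gon.E2.toTheta_apply]
        exact h1 _ (Submodule.subset_span (Or.inl ⟨x, w, hx, rfl⟩))) w _ d, hδ, map_zero]
    · rw [toTheta_emb]
      exact h1 _ (Submodule.subset_span (Or.inr ⟨α, u, hα, hu, rfl⟩))
  have h4 := toTheta_emb φ ((1 : ℚ) ⊗ₜ[ℤ] α) y
  rw [h3, emb_apply] at h4
  exact h4.symm

variable [NumberField F]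

theorem TT_all : ∀ k, TT F k
  | 0 => TT_zero
  | k + 1 => by
    obtain ⟨X₀, hX₀, hg⟩ := K2gen_lq (F := F)
    exact TT_step X₀ hX₀ hg k (TT_all k)

theorem symm_image {j : ℕ} (S : Set (H39Gon.TQ F 2 j)) :
    (eT F 0 j) '' ((eT F 0 j).symm '' S) = S := by
  rw [← Set.image_comp]
  have : (⇑(eT F 0 j) ∘ ⇑(eT F 0 j).symm) = id := by
    funext x; simp
  rw [this, Set.image_id]

theorem outM {j : ℕ} {A : Set (TQ F 2 (j + 1))} {A' : Set (H39Gon.TQ F 2 (j + 1))}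
    (hAA : (eT F 0 (j + 1)) '' A = A') (hA : ∀ v ∈ A', H39Gon.e1e F (j + 1) v = 0)
    (h : ∃ P : Set (H39Gon.TQ F 2 (j + 1)), P.Finite ∧
      ∀ u, H39Gon.e1e F (j + 1) u = 0 → u ∈ Submodule.span ℚ (A' ∪ P)) : FinMod (eG F) j A := by
  obtain ⟨P, hP, h⟩ := h
  obtain ⟨S, hS, hSk, h⟩ := finS A' P hA hP h
  refine ⟨(eT F 0 (j + 1)).symm '' S, hS.image _, fun u => ?_⟩
  rw [mem_span_iff, Set.image_union, symm_image, hAA, eG_zero_iff]
  constructor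
  · exact h _
  · intro hu
    refine ker_span ?_ hu
    rintro v (hv | hv)
    · exact hA v hv
    · exact hSk v hv

/-- **finite-dimensional modulo products** -/
theorem outU (j : ℕ) : FinMod (eG F) j (ImageB3 F j ∪ ProdH1 F (j + 1)) := by
  refine outM (by rw [Set.image_union, image_B3, image_H1]) ?_ (finP j (TT_all j))
  rintro v (hv | hv)
  · exact SDec_ker j v hv
  · exact SProd_ker j v hv

theorem image_PX (X : Finset (UV F)) (j : ℕ) : (eT F 0 j) '' (ProdX F X j) =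
    {v | ∃ (α : H39Gon.ZP F) (y : Fin j → H39Gon.UV F), H39Gon.delta2 F α = 0 ∧
      (∀ k, y k ∈ (X : Set (UV F))) ∧ v = emb y ((1 : ℚ) ⊗ₜ[ℤ] α)} := by
  ext v
  constructor
  · rintro ⟨_, ⟨α, y, hα, hy, rfl⟩, rfl⟩
    exact ⟨α, y, (delta2_zero_iff α).1 hα, hy, by rw [emb_apply]; exact eT_prod j α y⟩
  · rintro ⟨α, y, hα, hy, rfl⟩
    exact ⟨_, ⟨α, y, (delta2_zero_iff α).2 hα, hy, rfl⟩, by rw [emb_apply]; exact eT_prod j α y⟩

/-- **`n ≥ 4`: finite-dimensional modulo products with a finite set** -/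
theorem outUX : ∃ X : Finset (UV F), ∀ j,
    FinMod (eG F) (j + 1) (ImageB3 F (j + 1) ∪ ProdX F X (j + 2)) := by
  obtain ⟨X₀, hX₀, hg⟩ := K2gen_lq (F := F)
  refine ⟨hX₀.toFinset, fun j => ?_⟩
  have e : (hX₀.toFinset : Set (UV F)) = X₀ := hX₀.coe_toFinset
  obtain ⟨P, hP, h⟩ := finP (j + 1) (TT_all (F := F) (j + 1))
  refine outM (A' := SDec F (j + 1) ∪
      {v | ∃ (α : H39Gon.ZP F) (y : Fin (j + 2) → H39Gon.UV F), H39Gon.delta2 F α = 0 ∧
        (∀ k, y k ∈ X₀) ∧ v = emb y ((1 : ℚ) ⊗ₜ[ℤ] α)})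
    (by rw [Set.image_union, image_B3, image_PX, e]) ?_ ⟨P, hP, fun u hu => ?_⟩
  · rintro v (hv | ⟨α, y, hα, -, rfl⟩)
    · exact SDec_ker (j + 1) v hv
    · exact e_emb0 _ (by rw [δF_apply, hα, TensorProduct.tmul_zero]) y
  · have h1 : Submodule.span ℚ (SDec F (j + 1) ∪ Pool.Agent.V8H63.W3.SProd F (j + 2) ∪ P) ≤
        Submodule.span ℚ (SDec F (j + 1) ∪
      {v | ∃ (α : H39Gon.ZP F) (y : Fin (j + 2) → H39Gon.UV F), H39Gon.delta2 F α = 0 ∧
        (∀ k, y k ∈ X₀) ∧ v = emb y ((1 : ℚ) ⊗ₜ[ℤ] α)} ∪ P) := by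
      rw [Submodule.span_le]
      rintro v ((hv | hv) | hv)
      · exact Submodule.subset_span (Or.inl (Or.inl hv))
      · exact Submodule.span_mono Set.subset_union_left (prodX hg j hv)
      · exact Submodule.subset_span (Or.inr hv)
    exact h1 (h u hu)

end Pool.Agent.V8H63.NF
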