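import Pool.Agent.V8H63.NT.Out3
import Pool.Agent.V8H63.NF.Out

set_option autoImplicit false
set_option linter.unusedSectionVars false

/-!
# Number fields: finiteness in degree `n - 1`, without products
-/

namespace Pool.Agent.V8H63.NF

open scoped TensorProduct
open NumberField GonP Pool.Agent.V8H63.W3

variable {F : Type} [Field F] [NumberField F]

/-- **`n ≥ 4`: finite-dimensional if `H^1(Γ(F,2) ⊗ ℚ)` is** -/
theorem outUF (h3 : ∃ S : Set (TQ F 2 0), S.Finite ∧ ∀ u, eG F 0 u = 0 → u ∈ Submodule.span ℚ S)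
    (j : ℕ) : FinMod (eG F) (j + 1) (ImageB3 F (j + 1)) := by
  obtain ⟨X₀, hX₀, hg⟩ := K2gen_lq (F := F)
  obtain ⟨S, hS, hSk⟩ := h3
  obtain ⟨Q, H, hQ, hQ0, hH, hHδ, hQH⟩ := exQ (F := F) ⟨(eT F 0 0) '' S, hS.image _, by
    intro u hu
    have h1 : u = eT F 0 0 ((eT F 0 0).symm u) := by simp
    rw [h1, ← mem_span_iff]
    apply hSk
    rw [eG_zero_iff, ← h1]
    exact hu⟩
  obtain ⟨P, hP, h⟩ := finP (j + 1) (TT_all (F := F) (j + 1))
  set P' : Set (H39Gon.TQ F 2 (j + 2)) := ProdS H X₀ (j + 1) with hP'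
  have hP'f : P'.Finite := ProdS_finite hH hX₀ (j + 1)
  refine outM (A' := SDec F (j + 1)) (by rw [image_B3]) (fun v hv => SDec_ker (j + 1) v hv)
    ⟨P' ∪ P, hP'f.union hP, fun u hu => ?_⟩
  have h1 : Submodule.span ℚ (SDec F (j + 1) ∪ Pool.Agent.V8H63.W3.SProd F (j + 2) ∪ P) ≤
      Submodule.span ℚ (SDec F (j + 1) ∪ (P' ∪ P)) := by
    rw [Submodule.span_le]
    rintro v ((hv | hv) | hv)
    · exact Submodule.subset_span (Or.inl hv)
    · have h2 : Submodule.span ℚ (SDec F (j + 1) ∪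
          {v | ∃ (α : H39Gon.ZP F) (y : Fin (j + 2) → H39Gon.UV F), H39Gon.delta2 F α = 0 ∧
            (∀ k, y k ∈ X₀) ∧ v = emb y ((1 : ℚ) ⊗ₜ[ℤ] α)}) ≤
          Submodule.span ℚ (SDec F (j + 1) ∪ (P' ∪ P)) := by
        rw [Submodule.span_le]
        rintro v (hv | ⟨α, y, hα, hy, rfl⟩)
        · exact Submodule.subset_span (Or.inl hv)
        · by_contra hn
          obtain ⟨φ, h1, h2⟩ := H39Gon.E2.exists_dual_ne hn
          apply h2
          obtain ⟨h', -, -, a3, a4⟩ := hQH ((1 : ℚ) ⊗ₜ[ℤ] α) (by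
            rw [δF_apply, hα, TensorProduct.tmul_zero])
          rw [← toTheta_emb, a4 _ _ (fun r hr => H39Gon.E2.toTheta_R φ r hr), toTheta_emb]
          have h5 : Submodule.span ℚ H ≤ LinearMap.ker (φ ∘ₗ (emb y)) := by
            rw [Submodule.span_le]
            intro k hk
            rw [SetLike.mem_coe, LinearMap.mem_ker, LinearMap.comp_apply]
            exact h1 _ (Submodule.subset_span (Or.inr (Or.inl ⟨k, hk, y, hy, rfl⟩)))
          exact h5 a3
      exact h2 (prodX hg j hv)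
    · exact Submodule.subset_span (Or.inr (Or.inr hv))
  exact h1 (h u hu)

end Pool.Agent.V8H63.NF
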