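import Pool.Agent.V8H63.NT.Out4
import Pool.Agent.V8H63.NT.Orth2

set_option autoImplicit false
set_option linter.unusedSectionVars false

/-!
# Number fields: finiteness in degree `2` of `Γ(F,3)`, without products
-/

namespace Pool.Agent.V8H63.NF

open scoped TensorProduct
open NumberField GonP Pool.Agent.V8H63.W3

variable {F : Type} [Field F] [NumberField F]

theorem finP0 (h3 : ∃ S : Set (H39Gon.TQ F 2 0), S.Finite ∧
    ∀ u, H39Gon.e1e F 0 u = 0 → u ∈ Submodule.span ℚ S) :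
    ∃ P : Set (H39Gon.TQ F 2 1), P.Finite ∧
      ∀ u, H39Gon.e1e F 1 u = 0 → u ∈ Submodule.span ℚ (SDec F 0 ∪ P) := by
  obtain ⟨Q, H, hQ, hQ0, hH, hHδ, hQH⟩ := exQ h3
  obtain ⟨𝒲₁, h𝒲₁, hT⟩ := TT_zero (F := F)
  obtain ⟨𝒲₂, h𝒲₂, hO⟩ := orth_zero Q hQ hQ0 H hH
  refine ⟨(fun q : DQ F × (Fin (0 + 1) → H39Gon.UV F) => emb q.2 q.1) '' (𝒲₁ ∪ 𝒲₂),
    (h𝒲₁.union h𝒲₂).image _, fun u hu => ?_⟩
  by_contra hn
  obtain ⟨φ, h1, h2⟩ := H39Gon.E2.exists_dual_ne hn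
  apply h2
  have hP : ∀ q ∈ 𝒲₁ ∪ 𝒲₂, lf (H39Gon.E2.toTheta φ) q.1 q.2 = 0 := by
    intro q hq
    rw [toTheta_emb]
    exact h1 _ (Submodule.subset_span (Or.inr ⟨q, hq, rfl⟩))
  have hdec : ∀ (x : F) (y : Fin 0 → H39Gon.UV F), x ≠ 0 →
      H39Gon.E2.toTheta φ (Finsupp.single (some x) 1) (Fin.cons (H39Gon.cl x) y) = 0 := by
    intro x y hx
    rw [H39Gon.E2.toTheta_apply]
    exact h1 _ (Submodule.subset_span (Or.inl ⟨x, y, hx, rfl⟩))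
  have hG : Good Q (H39Gon.E2.toTheta φ) := by
    refine ⟨fun r hr => H39Gon.E2.toTheta_R φ r hr, hdec, fun h hh => ?_⟩
    obtain ⟨h', a1, a2, -, a4⟩ := hQH h hh
    exact ⟨h', a1, a2, a4 _ _ (fun r hr => H39Gon.E2.toTheta_R φ r hr)⟩
  have hk := hO _ hG (fun h hh => by
    obtain ⟨h', -, -, a3, a4⟩ := hQH h hh
    exact ⟨h', a3, a4 _ _ (fun r hr => H39Gon.E2.toTheta_R φ r hr)⟩)
    (fun q hq => hP q (Or.inr hq))
  obtain ⟨B, hB⟩ := hT (lf (H39Gon.E2.toTheta φ))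
    { ker := hk
      dec := fun x w hx => by
        rw [lf_apply]
        exact hdec x w hx } (fun q hq => hP q (Or.inl hq))
  exact pull φ B hB u hu

/-- **all `n ≥ 3`: finite-dimensional if `H^1(Γ(F,2) ⊗ ℚ)` is** -/
theorem outUF' (h3 : ∃ S : Set (TQ F 2 0), S.Finite ∧ ∀ u, eG F 0 u = 0 → u ∈ Submodule.span ℚ S)
    (j : ℕ) : FinMod (eG F) j (ImageB3 F j) := by
  obtain _ | j := j
  · obtain ⟨S, hS, hSk⟩ := h3
    refine outM (A' := SDec F 0) (by rw [image_B3]) (fun v hv => SDec_ker 0 v hv)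
      (finP0 ⟨(eT F 0 0) '' S, hS.image _, ?_⟩)
    intro u hu
    have h1 : u = eT F 0 0 ((eT F 0 0).symm u) := by simp
    rw [h1, ← mem_span_iff]
    apply hSk
    rw [eG_zero_iff, ← h1]
    exact hu
  · exact outUF h3 j

end Pool.Agent.V8H63.NF
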